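import Mathlib
import Pool.Graph.R_seed8.Y920.ETC.Chain
import Pool.Graph.R_seed8.Y920.ETC.Small
import Pool.Graph.R_pool_sql_team_seeded_b0a926ef.R675.PQ.Main

set_option autoImplicit false

/-! The splitting graph of a quaternionic structure with `-1 = 1`: the vertices are the elements
`a ≠ 1`, and `a`, `b` are joined if `q(a,b) = 0`. -/

namespace Pool.Agent.H86.SG

open Pool.Agent.H315R3.ETC Pool.Agent.Y920.ETC Pool.Agent.R675.PQ

/-- adjacency in the splitting graph -/
def Ad (S : QData) (a b : S.G) : Prop := a ≠ 1 ∧ b ≠ 1 ∧ S.q a b = S.zero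

/-- connected in the splitting graph -/
def Co (S : QData) : S.G → S.G → Prop := Relation.ReflTransGen (Ad S)

/-- components have diameter at most three, all but one have diameter at most two -/
structure Diam (S : QData) : Prop where
  three : ∀ a b : S.G, a ≠ 1 → Co S a b → ∃ x y : S.G, Ad S a x ∧ Ad S x y ∧ Ad S y b
  two : ∀ a b c d : S.G, a ≠ 1 → c ≠ 1 → Co S a b → Co S c d → (¬ ∃ x, Ad S a x ∧ Ad S x b) →
    (¬ ∃ x, Ad S c x ∧ Ad S x d) → Co S a c

section

variable {S : QData} (h : IsQuat S) (hn : S.neg = 1)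

include h in
lemma ad_symm {a b : S.G} (hab : Ad S a b) : Ad S b a :=
  ⟨hab.2.1, hab.1, by rw [h.qs2]; exact hab.2.2⟩

include h in
lemma co_symm {a b : S.G} (hab : Co S a b) : Co S b a := by
  induction hab with
  | refl => exact Relation.ReflTransGen.refl
  | tail _ h2 ih => exact Relation.ReflTransGen.head (ad_symm h h2) ih

lemma co_trans {a b c : S.G} (hab : Co S a b) (hbc : Co S b c) : Co S a c :=
  Relation.ReflTransGen.trans hab hbc

lemma co_ne {a b : S.G} (hab : Co S a b) (ha : a ≠ 1) : b ≠ 1 := by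
  induction hab with
  | refl => exact ha
  | tail _ h2 _ => exact h2.2.1

include h in
lemma q_mul {a b c : S.G} (hb : S.q a b = S.zero) (hc : S.q a c = S.zero) :
    S.q a (b * c) = S.zero := (h.qs3 a b c).1 (hb.trans hc.symm)

include h in
/-- multiplying the second argument by an element of the value group -/
lemma q_mul_right {a b c : S.G} (hc : S.q a c = S.zero) : S.q a (b * c) = S.q a b := by
  rw [h.qs3]
  have : b * c * b = c := by rw [mul_comm b c, mul_assoc, h.exp2, mul_one]
  rw [this]
  exact hc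

include h in
lemma mul_of_eq {a b c : S.G} (e : S.q a b = S.q a c) : S.q a (b * c) = S.zero :=
  (h.qs3 a b c).1 e

include h hn in
lemma q_self (a : S.G) : S.q a a = S.zero := by
  have := h.qs1 a
  rwa [hn, one_mul] at this

include h in
lemma q_one' (a : S.G) : S.q a 1 = S.zero := by
  have := (h.qs3 a a a).1 rfl
  rwa [h.exp2] at this

include h in
lemma mul_ne {a b : S.G} (hab : a ≠ b) : a * b ≠ 1 := by
  intro e
  apply hab
  have h1 := h.exp2 b
  exact mul_right_cancel (e.trans h1.symm)

include h in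
/-- elements with a common neighbour: the product is in the same component -/
lemma two_step {a x b : S.G} (h1 : Ad S a x) (h2 : Ad S x b) : a * b = 1 ∨ Co S a (a * b) := by
  by_cases e : a * b = 1
  · exact Or.inl e
  · refine Or.inr (Relation.ReflTransGen.tail (Relation.ReflTransGen.single h1) ⟨h1.2.1, e, ?_⟩)
    exact q_mul h (by rw [h.qs2]; exact h1.2.2) h2.2.2

/-- the component of `e`, together with `1`, is closed under products -/
def Good (S : QData) (e : S.G) : Prop :=
  ∀ x y : S.G, Co S e x → Co S e y → x * y = 1 ∨ Co S e (x * y)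

include h hn in
/-- the main lemma: if the product of the ends of a walk of length three lies in another component,
then this component is not closed under products -/
theorem three_step {a b c d : S.G} (hab : Ad S a b) (hbc : Ad S b c) (hcd : Ad S c d)
    (he : a * d ≠ 1) (hne : ¬ Co S a (a * d)) (hg : Good S (a * d)) : False := by
  have q1 : ∀ x : S.G, S.q x x = S.zero := q_self h hn
  have sy : ∀ x y : S.G, S.q x y = S.q y x := h.qs2
  set e := a * d with hed
  have hne' : ¬ Co S e a := fun hc => hne (co_symm h hc)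
  -- `1` or in the component of `e`
  have inK : ∀ x y : S.G, Co S e x → S.q x y = S.zero → y = 1 ∨ Co S e y := by
    intro x y hx hxy
    by_cases hy : y = 1
    · exact Or.inl hy
    · exact Or.inr (Relation.ReflTransGen.tail hx ⟨co_ne hx he, hy, hxy⟩)
  have hcb : S.q b (b * c) = S.zero := q_mul h (q1 b) hbc.2.2
  have hbcb : S.q (b * c) b = S.zero := by rw [sy]; exact hcb
  -- `q(e,b) = q(bc,d)`
  have e1 : S.q e b = S.q (b * c) d := by
    rw [sy e b, sy (b * c) d, hed, mul_comm a d]
    rw [q_mul_right h (by rw [sy]; exact hab.2.2), mul_comm b c, mul_comm c b]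
    rw [q_mul_right h (by rw [sy]; exact hcd.2.2)]
    exact sy b d
  obtain ⟨x, hx1, hx2⟩ := h.qs4 _ _ _ _ e1
  have hγ : S.q e (b * x) = S.zero := mul_of_eq h hx1
  have hz : S.q (b * c) (d * x) = S.zero := mul_of_eq h hx2
  set γ := b * x with hγd
  set z := d * x with hzd
  have hu : e * γ = a * b * z := by
    rw [hed, hγd, hzd]
    have : d * (b * x) = b * (d * x) := by rw [mul_left_comm]
    rw [mul_assoc a d, this, mul_assoc]
  have qee : S.q e (e * γ) = S.zero := q_mul h (q1 e) hγ
  -- `u ≠ 1`
  have hu1 : e * γ ≠ 1 := by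
    intro hu1
    have hz2 : z = a * b := by
      rw [hu] at hu1
      have := congrArg (fun t => a * b * t) hu1
      simpa only [← mul_assoc, h.exp2 (a * b), mul_one, one_mul, mul_assoc (a * b) (a * b) z]
        using this
    rw [hz2] at hz
    have h3 : S.q (b * c) a = S.zero := by
      rw [← q_mul_right h hbcb]; exact hz
    have h4 : S.q a c = S.zero := by
      have : S.q a (c * b) = S.q a c := q_mul_right h hab.2.2
      rw [← this, mul_comm c b, sy]
      exact h3
    rcases two_step h ⟨hab.1, hbc.2.1, h4⟩ hcd with h5 | h5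
    · exact he h5
    · exact hne h5
  have huK : Co S e (e * γ) :=
    Relation.ReflTransGen.single ⟨he, hu1, qee⟩
  -- `q(e,c) = q(u,bc)`
  have e2 : S.q e c = S.q (e * γ) (b * c) := by
    have l1 : S.q e c = S.q a c := by
      rw [sy e c, hed, q_mul_right h hcd.2.2, sy]
    have l2 : S.q (e * γ) (b * c) = S.q a c := by
      rw [sy (e * γ), hu, mul_assoc, q_mul_right h (q_mul h hbcb hz), sy, mul_comm b c,
        q_mul_right h hab.2.2]
    rw [l1, l2]
  obtain ⟨y, hy1, hy2⟩ := h.qs4 _ _ _ _ e2
  have hf : S.q e (c * y) = S.zero := mul_of_eq h hy1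
  have hf' : S.q (e * γ) (b * c * y) = S.zero := mul_of_eq h hy2
  have hb : c * y * (b * c * y) = b := by
    have : c * y * (b * c * y) = b * (c * c) * (y * y) := by
      simp only [mul_left_comm, mul_comm]
    rw [this, h.exp2, h.exp2, mul_one, mul_one]
  have hcon : b = 1 ∨ Co S e b := by
    rcases inK _ _ Relation.ReflTransGen.refl hf with h5 | h5
    · rcases inK _ _ huK hf' with h6 | h6
      · left
        rw [← hb, h5, h6, mul_one]
      · right
        rw [← hb, h5, one_mul]
        exact h6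
    · rcases inK _ _ huK hf' with h6 | h6
      · right
        rw [← hb, h6, mul_one]
        exact h5
      · rw [← hb]
        exact hg _ _ h5 h6
  rcases hcon with h5 | h5
  · exact hab.2.1 h5
  · exact hne' (Relation.ReflTransGen.tail h5 (ad_symm h hab))

include h hn in
/-- all components are closed under products -/
theorem good_all (hD : Diam S) : ∀ e : S.G, e ≠ 1 → Good S e := by
  -- a bad component contains two elements without common neighbour, and produces a bad component
  have bad : ∀ e : S.G, e ≠ 1 → ¬ Good S e → ∃ x y : S.G, Co S e x ∧ Co S e y ∧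
      (¬ ∃ w, Ad S x w ∧ Ad S w y) ∧ x * y ≠ 1 ∧ ¬ Co S e (x * y) := by
    intro e he hb
    unfold Good at hb
    push Not at hb
    obtain ⟨x, y, hx, hy, h1, h3⟩ := hb
    refine ⟨x, y, hx, hy, ?_, h1, h3⟩
    rintro ⟨w, hw1, hw2⟩
    rcases two_step h hw1 hw2 with h5 | h5
    · exact h1 h5
    · exact h3 (co_trans hx h5)
  intro e he
  by_contra hb
  obtain ⟨x, y, hx, hy, hxy, h1, h3⟩ := bad e he hb
  have hcx : Co S x y := co_trans (co_symm h hx) hy
  obtain ⟨u, v, hu, huv, hv⟩ := hD.three x y (co_ne hx he) hcx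
  have hnc : ¬ Co S x (x * y) := fun hc => h3 (co_trans hx hc)
  have hb2 : ¬ Good S (x * y) := fun hg => three_step h hn hu huv hv h1 hnc hg
  obtain ⟨x', y', hx', hy', hxy', -, -⟩ := bad (x * y) h1 hb2
  have h5 := hD.two x y x' y' (co_ne hx he) (co_ne hx' h1) hcx
    (co_trans (co_symm h hx') hy') hxy hxy'
  exact hnc (co_trans h5 (co_symm h hx'))

include h in
/-- the component of `e`, together with `1` -/
def comp (e : S.G) (hg : Good S e) : Subgroup S.G where
  carrier := {x | x = 1 ∨ Co S e x}
  one_mem' := Or.inl rfl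
  mul_mem' := by
    rintro x y (rfl | hx) (rfl | hy)
    · exact Or.inl (one_mul 1)
    · rw [one_mul]; exact Or.inr hy
    · rw [mul_one]; exact Or.inr hx
    · exact hg x y hx hy
  inv_mem' := by
    intro x hx
    have : x⁻¹ = x := inv_eq_of_mul_eq_one_left (h.exp2 x)
    rw [this]
    exact hx

include h hn in
/-- a disconnected splitting graph has an isolated vertex -/
theorem exists_bi [Finite S.G] (hD : Diam S) {a b : S.G} (ha : a ≠ 1) (hb : b ≠ 1)
    (hab : ¬ Co S a b) : ∃ x : S.G, Bi S x := by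
  have hg := good_all h hn hD
  let P : Set (Subgroup S.G) := {K | ∃ (e : S.G) (he : e ≠ 1), K = comp h e (hg e he)}
  have mem_comp : ∀ (e : S.G) (he : e ≠ 1) (x : S.G), x ∈ comp h e (hg e he) ↔
      (x = 1 ∨ Co S e x) := fun _ _ _ => Iff.rfl
  have hP : IsPartition S P := by
    refine ⟨?_, ?_, ?_, ?_⟩
    · intro K _
      rw [hn]; exact K.one_mem
    · rintro K ⟨e, he, rfl⟩ ht
      have h1 : ∀ x : S.G, x ≠ 1 → Co S e x := by
        intro x hx
        have : x ∈ comp h e (hg e he) := by rw [ht]; trivial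
        rcases (mem_comp e he x).1 this with h3 | h3
        · exact absurd h3 hx
        · exact h3
      exact hab (co_trans (co_symm h (h1 a ha)) (h1 b hb))
    · intro x
      by_cases hx : x = 1
      · exact ⟨comp h a (hg a ha), ⟨a, ha, rfl⟩, (mem_comp a ha x).2 (Or.inl hx)⟩
      · exact ⟨comp h x (hg x hx), ⟨x, hx, rfl⟩,
          (mem_comp x hx x).2 (Or.inr Relation.ReflTransGen.refl)⟩
    · rintro K ⟨e, he, rfl⟩ K' ⟨f, hf, rfl⟩ hne x hx hx'
      rcases (mem_comp e he x).1 hx with h1 | h1
      · exact Or.inl h1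
      · rcases (mem_comp f hf x).1 hx' with h2 | h2
        · exact Or.inl h2
        · exfalso
          apply hne
          ext y
          rw [mem_comp e he y, mem_comp f hf y]
          have hef : Co S e f := co_trans h1 (co_symm h h2)
          constructor
          · rintro (h3 | h3)
            · exact Or.inl h3
            · exact Or.inr (co_trans (co_symm h hef) h3)
          · rintro (h3 | h3)
            · exact Or.inl h3
            · exact Or.inr (co_trans hef h3)
  have hV : ContainsValueGroups S P := by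
    intro x hx
    refine ⟨comp h x (hg x hx), ⟨x, hx, rfl⟩, (mem_comp x hx x).2
      (Or.inr Relation.ReflTransGen.refl), ?_⟩
    intro y hy
    rw [mem_comp x hx y]
    by_cases hy1 : y = 1
    · exact Or.inl hy1
    · exact Or.inr (Relation.ReflTransGen.single ⟨hx, hy1, hy⟩)
  exact exists_bi_of_partition h hP hV

/-! ### the subgroup of the elements which are not rigid -/

include h in
/-- neighbours of elements which are not birigid are not birigid -/
lemma ad_mem {B : Subgroup S.G} (hB : ∀ a : S.G, a ∈ B ↔ ¬ Bi S a) (hneg : S.neg ∈ B) {a b : S.G}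
    (ha : a ∈ B) (hab : Ad S a b) : b ∈ B :=
  (isQuat_restrN h B hneg (fun x hx => by
    by_contra hc
    exact hx ((hB x).2 hc))).2 a b ha hab.1 hab.2.2

include h in
lemma co_mem {B : Subgroup S.G} (hB : ∀ a : S.G, a ∈ B ↔ ¬ Bi S a) (hneg : S.neg ∈ B) {a b : S.G}
    (ha : a ∈ B) (hab : Co S a b) : b ∈ B := by
  induction hab with
  | refl => exact ha
  | tail _ h2 ih => exact ad_mem h hB hneg ih h2

lemma ad_restr {B : Subgroup S.G} (hneg : S.neg ∈ B) {a b : B} :
    Ad (restrN S B hneg) a b ↔ Ad S a.1 b.1 := by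
  have key : ∀ x : B, x ≠ 1 ↔ (x : S.G) ≠ 1 := fun x =>
    not_congr ⟨fun e => by rw [e]; rfl, fun e => Subtype.ext e⟩
  constructor
  · rintro ⟨h1, h2, h3⟩
    exact ⟨(key a).1 h1, (key b).1 h2, h3⟩
  · rintro ⟨h1, h2, h3⟩
    exact ⟨(key a).2 h1, (key b).2 h2, h3⟩

lemma co_of_restr {B : Subgroup S.G} (hneg : S.neg ∈ B) {a b : B}
    (hab : Co (restrN S B hneg) a b) : Co S a.1 b.1 := by
  have : ∀ x : B, Relation.ReflTransGen (Ad (restrN S B hneg)) a x → Co S a.1 x.1 := by
    intro x hx
    induction hx with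
    | refl => exact Relation.ReflTransGen.refl
    | tail _ h2 ih => exact Relation.ReflTransGen.tail ih ((ad_restr hneg).1 h2)
  exact this b hab

include h in
lemma co_restr {B : Subgroup S.G} (hB : ∀ a : S.G, a ∈ B ↔ ¬ Bi S a) (hneg : S.neg ∈ B)
    {a b : B} (hab : Co S a.1 b.1) : Co (restrN S B hneg) a b := by
  have : ∀ x : S.G, Relation.ReflTransGen (Ad S) a.1 x → ∀ hx : x ∈ B,
      Relation.ReflTransGen (Ad (restrN S B hneg)) a ⟨x, hx⟩ := by
    intro x hx
    induction hx with
    | refl => intro _; exact Relation.ReflTransGen.refl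
    | tail h1 h2 ih =>
      intro hx
      have hy := co_mem h hB hneg a.2 h1
      exact Relation.ReflTransGen.tail (ih hy) ((ad_restr hneg).2 h2)
  exact this b.1 hab b.2

include h in
lemma diam_restr {B : Subgroup S.G} (hB : ∀ a : S.G, a ∈ B ↔ ¬ Bi S a) (hneg : S.neg ∈ B)
    (hD : Diam S) : Diam (restrN S B hneg) := by
  have key : ∀ x : B, x ≠ 1 → (x : S.G) ≠ 1 := fun x hx e => hx (Subtype.ext e)
  have nn : ∀ a b : B, (¬ ∃ x : (restrN S B hneg).G, Ad (restrN S B hneg) a x ∧
      Ad (restrN S B hneg) x b) → ¬ ∃ x, Ad S a.1 x ∧ Ad S x b.1 := by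
    rintro a b hc ⟨x, h1, h2⟩
    exact hc ⟨⟨x, ad_mem h hB hneg a.2 h1⟩, (ad_restr hneg).2 h1, (ad_restr hneg).2 h2⟩
  refine ⟨?_, ?_⟩
  · intro (a : B) (b : B) ha hab
    obtain ⟨x, y, h1, h2, h3⟩ := hD.three a.1 b.1 (key a ha) (co_of_restr hneg hab)
    have hx := ad_mem h hB hneg a.2 h1
    have hy := ad_mem h hB hneg hx h2
    exact ⟨⟨x, hx⟩, ⟨y, hy⟩, (ad_restr hneg).2 h1, (ad_restr hneg).2 h2, (ad_restr hneg).2 h3⟩
  · intro (a : B) (b : B) (c : B) (d : B) ha hc hab hcd h1 h2
    exact co_restr h hB hneg (hD.two a.1 b.1 c.1 d.1 (key a ha) (key c hc) (co_of_restr hneg hab)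
      (co_of_restr hneg hcd) (nn a b h1) (nn c d h2))

include h in
/-- a birigid element of the restriction is birigid -/
lemma bi_of_restr {B : Subgroup S.G} (hB : ∀ a : S.G, a ∈ B ↔ ¬ Bi S a) (hneg : S.neg ∈ B)
    {x : (restrN S B hneg).G} (hx : Bi (restrN S B hneg) x) : False := by
  obtain ⟨x, hxB⟩ := x
  obtain ⟨h1, h2, h3, h4⟩ := hx
  have hx1 : x ≠ 1 := fun e => h1 (Subtype.ext e)
  have hx2 : x ≠ S.neg := fun e => h2 (Subtype.ext e)
  have hin := (isQuat_restrN h B hneg (fun x hx => by
    by_contra hc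
    exact hx ((hB x).2 hc))).2
  have hnx1 : S.neg * x ≠ 1 := by
    intro e
    apply hx2
    have := congrArg (fun t => S.neg * t) e
    simpa only [← mul_assoc, h.exp2, one_mul, mul_one] using this
  refine (hB x).1 hxB ⟨hx1, hx2, ?_, ?_⟩
  · intro e he
    have heB := hin x e hxB hx1 he
    rcases h3 ⟨e, heB⟩ he with h5 | h5
    · exact Or.inl (congrArg Subtype.val h5)
    · exact Or.inr (congrArg Subtype.val h5)
  · intro e he
    have heB := hin (S.neg * x) e (B.mul_mem hneg hxB) hnx1 he
    rcases h4 ⟨e, heB⟩ he with h5 | h5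
    · exact Or.inl (congrArg Subtype.val h5)
    · exact Or.inr (congrArg Subtype.val h5)

include h hn in
/-- **Main theorem, structures.** The elements which are not rigid form, with `1`, a subgroup `B`,
the splitting graph of `B` is connected, and the structure is an iterated group extension of the
restriction to `B`. -/
theorem main [Finite S.G] (hD : Diam S) : ∃ (B : Subgroup S.G) (hneg : S.neg ∈ B) (k : ℕ),
    (∀ a : S.G, a ∈ B ↔ ¬ Bi S a) ∧
    (∀ a ∈ B, ∀ b ∈ B, a ≠ 1 → b ≠ 1 → Co S a b) ∧
    2 ^ k * Nat.card B = Nat.card S.G ∧ IsQuat (restrN S B hneg) ∧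
    Iso (ext^[k] (restrN S B hneg)) S := by
  obtain ⟨B, hB⟩ := Pool.Agent.Y67.ET.t_BASIC S h
  have hneg : S.neg ∈ B := (hB _).2 fun hb => hb.2.1 rfl
  have hout : ∀ a : S.G, a ∉ B → Bi S a := fun a ha => by
    by_contra hc
    exact ha ((hB a).2 hc)
  obtain ⟨k, hk1, hk2⟩ := chain _ S h inferInstance le_rfl B hneg hout
  have hT := (isQuat_restrN h B hneg hout).1
  refine ⟨B, hneg, k, hB, ?_, hk1, hT, hk2⟩
  intro a ha b hb ha1 hb1
  by_contra hc
  have hTn : (restrN S B hneg).neg = 1 := Subtype.ext hn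
  have hTf : Finite (restrN S B hneg).G := inferInstanceAs (Finite B)
  obtain ⟨x, hx⟩ := exists_bi hT hTn (diam_restr h hB hneg hD) (a := ⟨a, ha⟩) (b := ⟨b, hb⟩)
    (fun e => ha1 (congrArg Subtype.val e)) (fun e => hb1 (congrArg Subtype.val e))
    (fun e => hc (co_of_restr hneg e))
  exact bi_of_restr h hB hneg hx

end

end Pool.Agent.H86.SG
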