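import Mathlib
import Pool.Agent.H86.SG.Abs

set_option autoImplicit false

/-! The splitting graph of a quaternionic structure with arbitrary `-1`: the vertices are the
elements `a ≠ 1`, and `a`, `b` are joined if `q(a,b) = 0`. Components of diameter at most two. -/

namespace Pool.Agent.H86.SG

open Pool.Agent.H315R3.ETC Pool.Agent.Y920.ETC Pool.Agent.R675.PQ

/-- any two elements of a component are equal up to sign, adjacent or have a common neighbour -/
def Diam2 (S : QData) : Prop := ∀ a b : S.G, a ≠ 1 → Co S a b →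
  a * b = 1 ∨ a * b = S.neg ∨ S.q a b = S.zero ∨ ∃ x : S.G, Ad S a x ∧ Ad S x b

section

variable {S : QData} (h : IsQuat S)

include h in
lemma neg_neg' : S.neg * S.neg = 1 := h.exp2 _

include h in
lemma neg_mul_ne {a : S.G} (ha : a ≠ S.neg) : S.neg * a ≠ 1 := by
  intro e
  apply ha
  have := congrArg (fun t => S.neg * t) e
  simpa only [← mul_assoc, h.exp2, one_mul, mul_one] using this

include h in
lemma co_neg {a : S.G} (ha1 : a ≠ 1) (ha2 : a ≠ S.neg) : Co S a (S.neg * a) :=
  Relation.ReflTransGen.single ⟨ha1, neg_mul_ne h ha2, h.qs1 a⟩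

include h in
/-- the components together with `1`, `-1` are closed under products -/
theorem good2 (hD : Diam2 S) {e x y : S.G} (he : e ≠ 1) (hx : Co S e x) (hy : Co S e y) :
    x * y = 1 ∨ x * y = S.neg ∨ Co S e (x * y) := by
  have hx1 := co_ne hx he
  have hy1 := co_ne hy he
  rcases hD x y hx1 (co_trans (co_symm h hx) hy) with h1 | h1 | h1 | ⟨w, hw1, hw2⟩
  · exact Or.inl h1
  · exact Or.inr (Or.inl h1)
  · by_cases e1 : x * y = 1
    · exact Or.inl e1
    by_cases e2 : x * y = S.neg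
    · exact Or.inr (Or.inl e2)
    refine Or.inr (Or.inr ?_)
    have e3 : S.neg * (x * y) ≠ 1 := neg_mul_ne h e2
    have h3 : S.q x (S.neg * (x * y)) = S.zero := by
      rw [← mul_assoc]
      exact q_mul h (h.qs1 x) h1
    have h4 : Co S e (S.neg * (x * y)) := Relation.ReflTransGen.tail hx ⟨hx1, e3, h3⟩
    refine co_trans h4 (co_symm h (co_neg h e1 e2))
  · by_cases e1 : x * y = 1
    · exact Or.inl e1
    refine Or.inr (Or.inr ?_)
    refine Relation.ReflTransGen.tail (Relation.ReflTransGen.tail hx hw1) ⟨hw1.2.1, e1, ?_⟩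
    exact q_mul h (by rw [h.qs2]; exact hw1.2.2) hw2.2.2

include h in
/-- the component of `e`, together with `1`, `-1` -/
def comp2 (hD : Diam2 S) (e : S.G) (he : e ≠ 1) : Subgroup S.G where
  carrier := {x | x = 1 ∨ x = S.neg ∨ Co S e x}
  one_mem' := Or.inl rfl
  mul_mem' := by
    have hneg : ∀ x : S.G, Co S e x → S.neg * x = 1 ∨ S.neg * x = S.neg ∨ Co S e (S.neg * x) := by
      intro x hx
      by_cases e1 : x = S.neg
      · left; rw [e1]; exact h.exp2 _
      · exact Or.inr (Or.inr (co_trans hx (co_neg h (co_ne hx he) e1)))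
    rintro x y (rfl | rfl | hx) (rfl | rfl | hy)
    · exact Or.inl (one_mul 1)
    · rw [one_mul]; exact Or.inr (Or.inl rfl)
    · rw [one_mul]; exact Or.inr (Or.inr hy)
    · rw [mul_one]; exact Or.inr (Or.inl rfl)
    · exact Or.inl (h.exp2 _)
    · exact hneg y hy
    · rw [mul_one]; exact Or.inr (Or.inr hx)
    · rw [mul_comm]; exact hneg x hx
    · exact good2 h hD he hx hy
  inv_mem' := by
    intro x hx
    have : x⁻¹ = x := inv_eq_of_mul_eq_one_left (h.exp2 x)
    rw [this]
    exact hx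

include h in
theorem exists_bi2 [Finite S.G] (hD : Diam2 S) {a b : S.G} (ha : a ≠ 1) (ha' : a ≠ S.neg)
    (hb : b ≠ 1) (hb' : b ≠ S.neg) (hab : ¬ Co S a b) : ∃ x : S.G, Bi S x := by
  let P : Set (Subgroup S.G) := {K | ∃ (e : S.G) (he : e ≠ 1), e ≠ S.neg ∧ K = comp2 h hD e he}
  have mem_comp : ∀ (e : S.G) (he : e ≠ 1) (x : S.G), x ∈ comp2 h hD e he ↔
      (x = 1 ∨ x = S.neg ∨ Co S e x) := fun _ _ _ => Iff.rfl
  have hP : IsPartition S P := by
    refine ⟨?_, ?_, ?_, ?_⟩
    · rintro K ⟨e, he, -, rfl⟩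
      exact (mem_comp e he _).2 (Or.inr (Or.inl rfl))
    · rintro K ⟨e, he, he', rfl⟩ ht
      have h1 : ∀ x : S.G, x ≠ 1 → x ≠ S.neg → Co S e x := by
        intro x hx hx'
        have : x ∈ comp2 h hD e he := by rw [ht]; trivial
        rcases (mem_comp e he x).1 this with h3 | h3 | h3
        · exact absurd h3 hx
        · exact absurd h3 hx'
        · exact h3
      exact hab (co_trans (co_symm h (h1 a ha ha')) (h1 b hb hb'))
    · intro x
      by_cases hx : x = 1
      · exact ⟨comp2 h hD a ha, ⟨a, ha, ha', rfl⟩, (mem_comp a ha x).2 (Or.inl hx)⟩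
      by_cases hx' : x = S.neg
      · exact ⟨comp2 h hD a ha, ⟨a, ha, ha', rfl⟩, (mem_comp a ha x).2 (Or.inr (Or.inl hx'))⟩
      · exact ⟨comp2 h hD x hx, ⟨x, hx, hx', rfl⟩,
          (mem_comp x hx x).2 (Or.inr (Or.inr Relation.ReflTransGen.refl))⟩
    · rintro K ⟨e, he, -, rfl⟩ K' ⟨f, hf, -, rfl⟩ hne x hx hx'
      rcases (mem_comp e he x).1 hx with h1 | h1 | h1
      · exact Or.inl h1
      · exact Or.inr h1
      · rcases (mem_comp f hf x).1 hx' with h2 | h2 | h2
        · exact Or.inl h2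
        · exact Or.inr h2
        · exfalso
          apply hne
          ext y
          rw [mem_comp e he y, mem_comp f hf y]
          have hef : Co S e f := co_trans h1 (co_symm h h2)
          constructor
          · rintro (h3 | h3 | h3)
            · exact Or.inl h3
            · exact Or.inr (Or.inl h3)
            · exact Or.inr (Or.inr (co_trans (co_symm h hef) h3))
          · rintro (h3 | h3 | h3)
            · exact Or.inl h3
            · exact Or.inr (Or.inl h3)
            · exact Or.inr (Or.inr (co_trans hef h3))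
  have hV : ContainsValueGroups S P := by
    intro x hx
    by_cases hx' : x = S.neg
    · by_cases hv : ∃ v : S.G, S.q x v = S.zero ∧ v ≠ 1 ∧ v ≠ S.neg
      · obtain ⟨v, hv, hv1, hv2⟩ := hv
        refine ⟨comp2 h hD v hv1, ⟨v, hv1, hv2, rfl⟩, (mem_comp v hv1 x).2 (Or.inr (Or.inl hx')),
          ?_⟩
        intro y hy
        rw [mem_comp v hv1 y]
        by_cases hy1 : y = 1
        · exact Or.inl hy1
        · refine Or.inr (Or.inr ?_)
          have g1 : Ad S v x := ⟨hv1, hx, by rw [h.qs2]; exact hv⟩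
          have g2 : Ad S x y := ⟨hx, hy1, hy⟩
          exact Relation.ReflTransGen.tail (Relation.ReflTransGen.single g1) g2
      · push Not at hv
        refine ⟨comp2 h hD a ha, ⟨a, ha, ha', rfl⟩, (mem_comp a ha x).2 (Or.inr (Or.inl hx')), ?_⟩
        intro y hy
        rw [mem_comp a ha y]
        by_cases hy1 : y = 1
        · exact Or.inl hy1
        · exact Or.inr (Or.inl (hv y hy hy1))
    · refine ⟨comp2 h hD x hx, ⟨x, hx, hx', rfl⟩, (mem_comp x hx x).2
        (Or.inr (Or.inr Relation.ReflTransGen.refl)), ?_⟩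
      intro y hy
      rw [mem_comp x hx y]
      by_cases hy1 : y = 1
      · exact Or.inl hy1
      · exact Or.inr (Or.inr (Relation.ReflTransGen.single ⟨hx, hy1, hy⟩))
  exact exists_bi_of_partition h hP hV

include h in
lemma diam2_restr {B : Subgroup S.G} (hB : ∀ a : S.G, a ∈ B ↔ ¬ Bi S a) (hneg : S.neg ∈ B)
    (hD : Diam2 S) : Diam2 (restrN S B hneg) := by
  intro (a : B) (b : B) ha hab
  have ha1 : (a : S.G) ≠ 1 := fun e => ha (Subtype.ext e)
  rcases hD a.1 b.1 ha1 (co_of_restr hneg hab) with h1 | h1 | h1 | ⟨x, h1, h2⟩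
  · exact Or.inl (Subtype.ext h1)
  · exact Or.inr (Or.inl (Subtype.ext h1))
  · exact Or.inr (Or.inr (Or.inl h1))
  · exact Or.inr (Or.inr (Or.inr ⟨⟨x, ad_mem h hB hneg a.2 h1⟩, (ad_restr hneg).2 h1,
      (ad_restr hneg).2 h2⟩))

include h in
/-- **Main theorem, structures, arbitrary `-1`.** -/
theorem main2 [Finite S.G] (hD : Diam2 S) : ∃ (B : Subgroup S.G) (hneg : S.neg ∈ B) (k : ℕ),
    (∀ a : S.G, a ∈ B ↔ ¬ Bi S a) ∧
    (∀ a ∈ B, ∀ b ∈ B, a ≠ 1 → a ≠ S.neg → b ≠ 1 → b ≠ S.neg → Co S a b) ∧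
    2 ^ k * Nat.card B = Nat.card S.G ∧ IsQuat (restrN S B hneg) ∧
    Iso (ext^[k] (restrN S B hneg)) S := by
  obtain ⟨B, hB⟩ := Pool.Agent.Y67.ET.t_BASIC S h
  have hneg : S.neg ∈ B := (hB _).2 fun hb => hb.2.1 rfl
  have hout : ∀ a : S.G, a ∉ B → Bi S a := fun a ha => by
    by_contra hc
    exact ha ((hB a).2 hc)
  obtain ⟨k, hk1, hk2⟩ := chain _ S h inferInstance le_rfl B hneg hout
  have hT := (isQuat_restrN h B hneg hout).1
  refine ⟨B, hneg, k, hB, ?_, hk1, hT, hk2⟩
  intro a ha b hb ha1 ha2 hb1 hb2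
  by_contra hc
  have hTf : Finite (restrN S B hneg).G := inferInstanceAs (Finite B)
  obtain ⟨x, hx⟩ := exists_bi2 hT (diam2_restr h hB hneg hD) (a := ⟨a, ha⟩) (b := ⟨b, hb⟩)
    (fun e => ha1 (congrArg Subtype.val e)) (fun e => ha2 (congrArg Subtype.val e))
    (fun e => hb1 (congrArg Subtype.val e)) (fun e => hb2 (congrArg Subtype.val e))
    (fun e => hc (co_of_restr hneg e))
  exact bi_of_restr h hB hneg hx

/-- components have diameter at most two, or `-1 = 1` and they have diameter at most three, all but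
one diameter at most two -/
def Narrow (S : QData) : Prop := Diam2 S ∨ (S.neg = 1 ∧ Diam S)

include h in
/-- **Main theorem, structures.** -/
theorem main3 [Finite S.G] (hD : Narrow S) : ∃ (B : Subgroup S.G) (hneg : S.neg ∈ B) (k : ℕ),
    (∀ a : S.G, a ∈ B ↔ ¬ Bi S a) ∧
    (∀ a ∈ B, ∀ b ∈ B, a ≠ 1 → a ≠ S.neg → b ≠ 1 → b ≠ S.neg → Co S a b) ∧
    2 ^ k * Nat.card B = Nat.card S.G ∧ IsQuat (restrN S B hneg) ∧
    Iso (ext^[k] (restrN S B hneg)) S := by
  rcases hD with hD | ⟨hn, hD⟩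
  · exact main2 h hD
  · obtain ⟨B, hneg, k, h1, h2, h3, h4, h5⟩ := main h hn hD
    exact ⟨B, hneg, k, h1, fun a ha b hb ha1 _ hb1 _ => h2 a ha b hb ha1 hb1, h3, h4, h5⟩

end

end Pool.Agent.H86.SG
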