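import Mathlib
import Pool.Agent.H86.SG.Two
import Pool.Graph.R_seed8.H315R3.ETC.Gen

set_option autoImplicit false

/-! Subgroups closed under value groups which contain an element with a largest value group
(arbitrary `-1`). -/

namespace Pool.Agent.H86.SG

open Pool.Agent.H315R3.ETC Pool.Agent.Y920.ETC

/-- the value group of `x` meets the value groups of all other slots of `t` trivially -/
def Fr (S : QData) (t : S.Q) (x : S.G) : Prop :=
  ∀ u : S.G, u ≠ x → (∃ y, S.q u y = t) → ∀ z, S.q x z = S.zero → S.q u z = S.zero → z = 1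

section

variable {S : QData} (h : IsQuat S)

include h in
lemma eq_of_mul' {a b : S.G} (e : a * b = 1) : a = b := by
  have := h.exp2 b
  exact mul_right_cancel (e.trans this.symm)

include h in
lemma linkt {t : S.Q} {u v y y' : S.G} (h1 : S.q u y = t) (h2 : S.q v y' = t) :
    ∃ x, S.q u x = t ∧ S.q v x = t := by
  obtain ⟨x, h3, h4⟩ := h.qs4 u y v y' (h1.trans h2.symm)
  exact ⟨x, h3.symm.trans h1, h4.symm.trans h2⟩

include h in
lemma uniq {t : S.Q} {x u y y' : S.G} (hf : Fr S t x) (hu : u ≠ x) (h1 : S.q x y = t)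
    (h2 : S.q u y = t) (h3 : S.q x y' = t) (h4 : S.q u y' = t) : y = y' :=
  eq_of_mul' h (hf u hu ⟨y, h2⟩ _ (mul_of_eq h (h1.trans h3.symm)) (mul_of_eq h (h2.trans h4.symm)))

include h in
lemma card_L {t : S.Q} {u y0 : S.G} (h0 : S.q u y0 = t) :
    Nat.card {y // S.q u y = t} = vs S u := by
  have : vs S u = Nat.card {z // S.q u z = S.zero} := rfl
  rw [this]
  refine Nat.card_congr ⟨fun y => ⟨y0 * y.1, mul_of_eq h (h0.trans y.2.symm)⟩,
    fun z => ⟨y0 * z.1, by rw [q_mul_right h z.2]; exact h0⟩, ?_, ?_⟩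
  · intro y
    ext
    show y0 * (y0 * y.1) = y.1
    rw [← mul_assoc, h.exp2, one_mul]
  · intro z
    ext
    show y0 * (y0 * z.1) = z.1
    rw [← mul_assoc, h.exp2, one_mul]

include h in
/-- neighbours of `w` and of the free slot `x` -/
lemma exists_map {t : S.Q} {x x0 w w0 : S.G} (hf : Fr S t x) (hx : S.q x x0 = t)
    (hw : S.q w w0 = t) (hxw : S.q x w ≠ t) :
    ∃ f : {c // S.q w c = t} → {y // S.q x y = t}, Function.Surjective f ∧
      ∀ c y, S.q c.1 y = t → S.q x y = t → (f c).1 = y := by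
  have hsym : ∀ a b : S.G, S.q a b = S.q b a := h.qs2
  have ex : ∀ c : {c // S.q w c = t}, ∃ y : {y // S.q x y = t}, S.q c.1 y.1 = t := by
    intro c
    obtain ⟨y, h1, h2⟩ := linkt h hx ((hsym c.1 w).trans c.2)
    exact ⟨⟨y, h1⟩, h2⟩
  choose f hfc using ex
  have key : ∀ (c : {c // S.q w c = t}) (y : S.G), S.q c.1 y = t → S.q x y = t →
      (f c).1 = y := by
    intro c y h1 h2
    have hcx : c.1 ≠ x := by
      intro e
      apply hxw
      rw [hsym, ← e]
      exact c.2
    exact uniq h hf hcx (f c).2 (hfc c) h2 h1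
  refine ⟨f, ?_, key⟩
  intro y
  obtain ⟨c, h1, h2⟩ := linkt h hw ((hsym y.1 x).trans y.2)
  exact ⟨⟨c, h1⟩, Subtype.ext (key ⟨c, h1⟩ y.1 ((hsym _ _).trans h2) y.2)⟩

include h in
lemma ge_of_free [Finite S.G] {t : S.Q} {x x0 w w0 : S.G} (hf : Fr S t x) (hx : S.q x x0 = t)
    (hw : S.q w w0 = t) (hxw : S.q x w ≠ t) : vs S x ≤ vs S w := by
  obtain ⟨f, hs, -⟩ := exists_map h hf hx hw hxw
  rw [← card_L h hx, ← card_L h hw]
  exact Nat.card_le_card_of_surjective f hs

include h in
lemma indep_of_le [Finite S.G] {t : S.Q} {x x0 w w0 : S.G} (hf : Fr S t x) (hx : S.q x x0 = t)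
    (hw : S.q w w0 = t) (hxw : S.q x w ≠ t) (hle : vs S w ≤ vs S x) {y z : S.G}
    (hy : S.q x y = t) (h1 : S.q w z = S.zero) (h2 : S.q y z = S.zero) : z = 1 := by
  have hsym : ∀ a b : S.G, S.q a b = S.q b a := h.qs2
  obtain ⟨f, hs, hk⟩ := exists_map h hf hx hw hxw
  have hb : Function.Bijective f := by
    refine hs.bijective_of_nat_card_le ?_
    rw [card_L h hx, card_L h hw]
    exact hle
  obtain ⟨c, h3, h4⟩ := linkt h hw ((hsym y x).trans hy)
  have h5 : S.q w (c * z) = t := by rw [q_mul_right h h1]; exact h3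
  have h6 : S.q (c * z) y = t := by rw [hsym, q_mul_right h h2]; exact h4
  have e1 := hk ⟨c, h3⟩ y ((hsym _ _).trans h4) hy
  have e2 := hk ⟨c * z, h5⟩ y h6 hy
  have e3 := hb.1 (Subtype.ext (e1.trans e2.symm))
  have e4 : c = c * z := congrArg Subtype.val e3
  exact (left_eq_mul.1 e4)

include h in
/-- neighbours of free slots with largest value groups are free -/
lemma free_of_free [Finite S.G] {t : S.Q} (hl : ∀ a : S.G, S.q a a ≠ t) {x x0 : S.G}
    (hf : Fr S t x) (hx : S.q x x0 = t) (hmax : ∀ u y, S.q u y = t → vs S u ≤ vs S x) {y : S.G}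
    (hy : S.q x y = t) : Fr S t y := by
  have hsym : ∀ a b : S.G, S.q a b = S.q b a := h.qs2
  intro u hu hus z h1 h2
  obtain ⟨u0, hu0⟩ := hus
  have hyx : y ≠ x := by
    intro e
    rw [e] at hy
    exact hl x hy
  by_cases hux : u = x
  · rw [hux] at h2
    exact hf y hyx ⟨x, (hsym _ _).trans hy⟩ z h2 h1
  by_cases hxu : S.q x u = t
  · by_contra hz
    have hxz : x * z ≠ x := fun e => hz (mul_eq_left.1 e)
    have e1 : S.q (x * z) y = t := by
      rw [hsym, q_mul_right h h1]; exact (hsym _ _).trans hy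
    have e2 : S.q (x * z) u = t := by
      rw [hsym, q_mul_right h h2]; exact (hsym _ _).trans hxu
    exact hu (uniq h hf hxz hxu e2 hy e1)
  · exact indep_of_le h hf hx hu0 hxu (hmax u u0 hu0) hy h2 h1

include h in
/-- a free slot and a neighbour of it with largest value groups: contradiction -/
theorem no_two [Finite S.G] {t : S.Q} (hl : ∀ a : S.G, S.q a a ≠ t) {x w : S.G} (hf : Fr S t x)
    (hw : S.q x w = t) (hmax : ∀ u y, S.q u y = t → vs S u ≤ vs S x) (hxw : vs S x ≤ vs S w)
    (h3 : 3 ≤ vs S x) : False := by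
  have hsym : ∀ a b : S.G, S.q a b = S.q b a := h.qs2
  have fr : ∀ y, S.q x y = t → Fr S t y := fun y hy => free_of_free h hl hf hw hmax hy
  have hxx : ∀ y, S.q x y = t → y ≠ x := by
    intro y hy e
    rw [e] at hy
    exact hl x hy
  -- the only common neighbour of `x` and `y`
  have com : ∀ y c, S.q x y = t → S.q x c = t → S.q y c = t → c = y * (S.neg * x) := by
    intro y c h1 h2 h4
    refine uniq h hf (hxx y h1) h2 h4 ?_ ?_
    · rw [q_mul_right h (h.qs1 x)]; exact h1
    · have e : y * (S.neg * x) = x * (S.neg * y) := by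
        rw [mul_left_comm, mul_comm y x, mul_left_comm x]
      rw [e, q_mul_right h (h.qs1 y)]; exact (hsym _ _).trans h1
  -- comparison of neighbours of `x`
  have cmp : ∀ y c, S.q x y = t → S.q x c = t → c ≠ y * (S.neg * x) → vs S y ≤ vs S c := by
    intro y c h1 h2 h4
    refine ge_of_free h (fr y h1) ((hsym _ _).trans h1) ((hsym c x).trans h2) ?_
    intro h5
    exact h4 (com y c h1 h2 h5)
  have all : ∀ y, S.q x y = t → vs S x ≤ vs S y := by
    intro y hy
    by_cases hy1 : y = w * (S.neg * x)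
    · -- a third neighbour
      have hex : ∃ c, S.q x c = t ∧ c ≠ w ∧ c ≠ w * (S.neg * x) := by
        by_contra hcon
        push Not at hcon
        have h4 : Nat.card {y // S.q x y = t} ≤ 2 := by
          have hsub : {y | S.q x y = t} ⊆ ({w, w * (S.neg * x)} : Set S.G) := by
            intro c hc
            by_cases hcw : c = w
            · exact Or.inl hcw
            · exact Or.inr (hcon c hc hcw)
          have h5 := Set.ncard_le_ncard hsub (Set.toFinite _)
          have h6 := Set.ncard_insert_le w ({w * (S.neg * x)} : Set S.G)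
          rw [Set.ncard_singleton] at h6
          have h7 : {y | S.q x y = t}.ncard = Nat.card {y // S.q x y = t} := rfl
          omega
        rw [card_L h hw] at h4
        omega
      obtain ⟨c, hc, hc1, hc2⟩ := hex
      have h4 : vs S w ≤ vs S c := cmp w c hw hc hc2
      have h5 : vs S c ≤ vs S y := by
        refine cmp c y hc hy ?_
        intro e
        rw [hy1] at e
        exact hc1 (mul_right_cancel e).symm
      omega
    · have h4 : vs S w ≤ vs S y := cmp w y hw hy hy1
      omega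
  have hI : Indep S t := by
    have frall : ∀ u y, S.q u y = t → Fr S t u := by
      intro u y hu
      by_cases hux : u = x
      · rw [hux]; exact hf
      obtain ⟨c, h4, h5⟩ := linkt h hw hu
      have hc := all c h4
      exact free_of_free h hl (fr c h4) ((hsym _ _).trans h4)
        (fun u' y' h6 => (hmax u' y' h6).trans hc) ((hsym _ _).trans h5)
    intro u v huv hu hv d h4 h5
    obtain ⟨y, hy⟩ := hu
    exact frall u y hy v huv.symm hv d h4 h5
  obtain ⟨r0, hr0⟩ := rigid_slots h hl hI
  obtain ⟨r, hr, y, hy⟩ : ∃ r, (∀ e : S.G, S.q r e = S.zero → e = 1 ∨ e = S.neg * r) ∧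
      ∃ y, S.q r y = t := by
    by_cases hx : x = r0
    · exact ⟨w, hr0 w (fun e => hxx w hw (e.trans hx.symm)) ⟨x, (hsym _ _).trans hw⟩, x,
        (hsym _ _).trans hw⟩
    · exact ⟨x, hr0 x hx ⟨w, hw⟩, w, hw⟩
  have hr2 : vs S r ≤ 2 := by
    have hsub : {b : S.G | S.q r b = S.zero} ⊆ ({1, S.neg * r} : Set S.G) := fun c hc => hr c hc
    have h5 := Set.ncard_le_ncard hsub (Set.toFinite _)
    have h6 := Set.ncard_insert_le (1 : S.G) ({S.neg * r} : Set S.G)
    rw [Set.ncard_singleton] at h6
    have h7 : {b : S.G | S.q r b = S.zero}.ncard = vs S r := rfl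
    omega
  -- all slots have large value groups
  have h4 : vs S x ≤ vs S r := by
    by_cases hrx : r = x
    · rw [hrx]
    by_cases hxr : S.q x r = t
    · exact all r hxr
    · exact ge_of_free h hf hw hy hxr
  omega

include h in
/-- **Main theorem.** Let `K` be a subgroup which contains `-1`, the value groups of its elements
`≠ 1` and an element `a ≠ 1, -1` whose value group is at least as large as those of the elements
outside of `K`. Then all elements outside of `K` are rigid. -/
theorem rigid_outside [Finite S.G] (K : Subgroup S.G) (hneg : S.neg ∈ K)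
    (hK : ∀ u ∈ K, u ≠ 1 → ∀ z, S.q u z = S.zero → z ∈ K) {a : S.G} (ha : a ∈ K) (ha1 : a ≠ 1)
    (ha2 : a ≠ S.neg) (hmax : ∀ g : S.G, g ∉ K → vs S g ≤ vs S a) {b : S.G}
    (hb : b ∉ K) : ∀ e : S.G, S.q b e = S.zero → e = 1 ∨ e = S.neg * b := by
  have hsym : ∀ a b : S.G, S.q a b = S.q b a := h.qs2
  have nz : ∀ c, c ∉ K → S.q a c ≠ S.zero := fun c hc e => hc (hK a ha ha1 c e)
  -- the only slot in `K`
  have slotK : ∀ c, c ∉ K → ∀ u ∈ K, (∃ y, S.q u y = S.q a c) → u = a := by
    rintro c hc u huK ⟨y, hy⟩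
    by_contra hu
    obtain ⟨x, h3, h4⟩ := linkt h (rfl : S.q a c = S.q a c) hy
    have hx : x ∉ K := by
      intro hxK
      have h5 : S.q a (c * x) = S.zero := mul_of_eq h h3.symm
      have h6 := hK a ha ha1 _ h5
      exact hc (by
        have := K.mul_mem h6 hxK
        rwa [mul_assoc, h.exp2, mul_one] at this)
    have hau : a * u ≠ 1 := fun e => hu (eq_of_mul' h e).symm
    have h5 : S.q x (a * u) = S.zero :=
      mul_of_eq h (((hsym x a).trans h3).trans ((hsym u x).symm.trans h4).symm)
    exact hx (hK _ (K.mul_mem ha huK) hau x ((hsym _ _).trans h5))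
  have hfree : ∀ c, c ∉ K → Fr S (S.q a c) a := by
    intro c hc u hu hus z h1 h2
    by_contra hz
    have hzK : z ∈ K := hK a ha ha1 z h1
    have huK : u ∈ K := hK z hzK hz u ((hsym _ _).trans h2)
    exact hu (slotK c hc u huK hus)
  have hl : ∀ c, c ∉ K → ∀ e : S.G, S.q e e ≠ S.q a c := by
    intro c hc e he
    have h1 : S.q e e = S.q e S.neg := by
      rw [h.qs3, mul_comm]
      exact h.qs1 e
    exact ha2 (slotK c hc S.neg hneg ⟨e, by rw [hsym, ← h1]; exact he⟩).symm
  have hmx : ∀ c, c ∉ K → ∀ u y, S.q u y = S.q a c → vs S u ≤ vs S a := by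
    intro c hc u y hu
    by_cases huK : u ∈ K
    · rw [slotK c hc u huK ⟨y, hu⟩]
    · exact hmax u huK
  intro e he
  by_contra hcon
  push Not at hcon
  obtain ⟨he1, heb⟩ := hcon
  have hb1 : b ≠ 1 := fun e => hb (by rw [e]; exact K.one_mem)
  have hb2 : b ≠ S.neg := fun e => hb (by rw [e]; exact hneg)
  have heK : e ∉ K := fun hc => hb (hK e hc he1 b ((hsym _ _).trans he))
  have hvb : 3 ≤ vs S b := by
    have hsub : ({1, S.neg * b, e} : Set S.G) ⊆ {c : S.G | S.q b c = S.zero} := by
      rintro c (rfl | rfl | rfl)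
      · exact Pool.Agent.H86.SG.q_one' h b
      · exact h.qs1 b
      · exact he
    have h5 := Set.ncard_le_ncard hsub (Set.toFinite _)
    have h6 : ({1, S.neg * b, e} : Set S.G).ncard = 3 := by
      rw [Set.ncard_eq_three]
      exact ⟨1, S.neg * b, e, (neg_mul_ne h hb2).symm, he1.symm, heb.symm, rfl⟩
    have h7 : {c : S.G | S.q b c = S.zero}.ncard = vs S b := rfl
    omega
  have h3 : 3 ≤ vs S a := hvb.trans (hmax b hb)
  have hw : S.q b (a * e) = S.q a b := by
    rw [q_mul_right h he]; exact hsym b a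
  have hwK : a * e ∉ K := by
    intro hc
    apply heK
    have := K.mul_mem ha hc
    rwa [← mul_assoc, h.exp2, one_mul] at this
  have haw : S.q a (a * e) ≠ S.q a b := by
    intro hc
    have h5 : S.q a (a * e * b) = S.zero := mul_of_eq h hc
    have h6 : S.q a (S.neg * a * (a * e * b)) = S.zero := q_mul h (h.qs1 a) h5
    have h7 : S.neg * a * (a * e * b) = S.neg * (e * b) := by
      have : S.neg * a * (a * e * b) = S.neg * (a * a) * (e * b) := by
        simp only [mul_assoc]
      rw [this, h.exp2, mul_one]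
    rw [h7] at h6
    have h8 := hK a ha ha1 _ h6
    have h9 : S.neg * (e * b) ≠ 1 := by
      intro e'
      apply heb
      have h10 : e * (S.neg * b) = 1 := by rw [mul_left_comm]; exact e'
      exact eq_of_mul' h h10
    have h10 : S.q (S.neg * (e * b)) b = S.zero := by
      rw [hsym, mul_left_comm]
      exact q_mul h he (h.qs1 b)
    exact hb (hK _ h8 h9 b h10)
  have hle : vs S a ≤ vs S (a * e) :=
    ge_of_free h (hfree b hb) rfl ((hsym _ _).trans hw) haw
  exact no_two h (hl _ hwK) (hfree _ hwK) rfl (hmx _ hwK) hle h3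

include h in
/-- the value groups of the elements outside of `K` are small -/
lemma vs_le_of_index [Finite S.G] (K : Subgroup S.G)
    (hK : ∀ u ∈ K, u ≠ 1 → ∀ z, S.q u z = S.zero → z ∈ K) {a : S.G}
    (hc : Nat.card S.G ≤ Nat.card K * vs S a) {g : S.G} (hg : g ∉ K) : vs S g ≤ vs S a := by
  have hsym : ∀ a b : S.G, S.q a b = S.q b a := h.qs2
  let f : {z // S.q g z = S.zero} × K → S.G := fun p => p.1.1 * p.2.1
  have hf : Function.Injective f := by
    rintro ⟨⟨z, hz⟩, ⟨k, hk⟩⟩ ⟨⟨z', hz'⟩, ⟨k', hk'⟩⟩ e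
    have e' : z * k = z' * k' := e
    have h1 : z * z' = k * k' := by
      have h2 : z * k * (z' * k) = z' * k' * (z' * k) := by rw [e']
      have h3 : z * k * (z' * k) = z * z' * (k * k) := mul_mul_mul_comm _ _ _ _
      have h4 : z' * k' * (z' * k) = z' * z' * (k' * k) := mul_mul_mul_comm _ _ _ _
      rw [h3, h4, h.exp2, h.exp2, mul_one, one_mul, mul_comm k'] at h2
      exact h2
    have h5 : S.q g (z * z') = S.zero := q_mul h hz hz'
    have h6 : z * z' = 1 := by
      by_contra hne
      exact hg (hK _ (by rw [h1]; exact K.mul_mem hk hk') hne g ((hsym _ _).trans h5))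
    have h7 : z = z' := eq_of_mul' h h6
    subst h7
    have h8 : k = k' := mul_left_cancel e'
    subst h8
    rfl
  have h1 := Nat.card_le_card_of_injective f hf
  rw [Nat.card_prod] at h1
  have h2 : vs S g = Nat.card {z // S.q g z = S.zero} := rfl
  rw [← h2] at h1
  have h3 : 0 < Nat.card K := Nat.card_pos
  refine Nat.le_of_mul_le_mul_left ?_ h3
  calc Nat.card K * vs S g = vs S g * Nat.card K := mul_comm _ _
    _ ≤ Nat.card S.G := h1
    _ ≤ Nat.card K * vs S a := hc

end

end Pool.Agent.H86.SG
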