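import Mathlib
import Pool.Agent.H86.SG.Max

set_option autoImplicit false

/-! Subgroups closed under value groups: counting (arbitrary `-1`). -/

namespace Pool.Agent.H86.SG

open Pool.Agent.H315R3.ETC Pool.Agent.Y920.ETC

/-- `K` contains the value groups of its elements `≠ 1` -/
def ClosedV (S : QData) (K : Subgroup S.G) : Prop :=
  ∀ u ∈ K, u ≠ 1 → ∀ z, S.q u z = S.zero → z ∈ K

section

variable {S : QData} (h : IsQuat S) {K : Subgroup S.G} (hneg : S.neg ∈ K) (hK : ClosedV S K)

include h hK in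
lemma one_of_both {z v : S.G} (hz : z ∉ K) (hv : v ∈ K) (e : S.q z v = S.zero) : v = 1 := by
  by_contra hne
  exact hz (hK v hv hne z ((h.qs2 _ _).trans e))

include h hK in
/-- the only slot in `K` -/
lemma slot_unique {a c : S.G} (ha : a ∈ K) (ha1 : a ≠ 1) (hc : c ∉ K) {u y : S.G} (huK : u ∈ K)
    (hy : S.q u y = S.q a c) : u = a := by
  have hsym : ∀ a b : S.G, S.q a b = S.q b a := h.qs2
  by_contra hu
  obtain ⟨x, h3, h4⟩ := linkt h (rfl : S.q a c = S.q a c) hy
  have hx : x ∉ K := by
    intro hxK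
    have h5 : S.q a (c * x) = S.zero := mul_of_eq h h3.symm
    have h6 := hK a ha ha1 _ h5
    exact hc (by
      have := K.mul_mem h6 hxK
      rwa [mul_assoc, h.exp2, mul_one] at this)
  have hau : a * u ≠ 1 := fun e => hu (eq_of_mul' h e).symm
  have h5 : S.q x (a * u) = S.zero :=
    mul_of_eq h (((hsym x a).trans h3).trans ((hsym u x).symm.trans h4).symm)
  exact hx (hK _ (K.mul_mem ha huK) hau x ((hsym _ _).trans h5))

include h hK in
lemma free_slot {a c : S.G} (ha : a ∈ K) (ha1 : a ≠ 1) (hc : c ∉ K) : Fr S (S.q a c) a := by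
  rintro u hu ⟨y, hy⟩ z h1 h2
  by_contra hz
  have hzK : z ∈ K := hK a ha ha1 z h1
  have huK : u ∈ K := hK z hzK hz u ((h.qs2 _ _).trans h2)
  exact hu (slot_unique h hK ha ha1 hc huK hy)

include h hK in
/-- translates of elements which are not rigid have large value groups -/
lemma vs_le_mul [Finite S.G] {a z : S.G} (ha : a ∈ K) (ha1 : a ≠ 1) (hz : z ∉ K)
    (hr : ¬ Hr S z) : vs S a ≤ vs S (a * z) := by
  unfold Hr at hr
  push Not at hr
  obtain ⟨y, hy, hy1, hy2⟩ := hr
  have hyK : y ∉ K := fun hc => hy1 (one_of_both h hK hz hc hy)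
  have hw : S.q (a * z) y = S.q a y := by
    rw [h.qs2, q_mul_right h ((h.qs2 _ _).trans hy)]
    exact h.qs2 _ _
  have haw : S.q a (a * z) ≠ S.q a y := by
    intro e
    have h5 : S.q a (a * z * y) = S.zero := mul_of_eq h e
    have h6 : S.q a (S.neg * a * (a * z * y)) = S.zero := q_mul h (h.qs1 a) h5
    have h7 : S.neg * a * (a * z * y) = S.neg * (z * y) := by
      have : S.neg * a * (a * z * y) = S.neg * (a * a) * (z * y) := by simp only [mul_assoc]
      rw [this, h.exp2, mul_one]
    rw [h7] at h6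
    have h8 := hK a ha ha1 _ h6
    have h9 : S.q z (S.neg * (z * y)) = S.zero := by
      rw [← mul_assoc]
      exact q_mul h (h.qs1 z) hy
    have h10 := one_of_both h hK hz h8 h9
    apply hy2
    have h11 : y * (S.neg * z) = 1 := by
      rw [mul_comm, mul_assoc]
      exact h10
    exact eq_of_mul' h h11
  exact ge_of_free h (free_slot h hK ha ha1 hyK) rfl hw haw

include h hneg hK in
/-- different elements of a coset of `K` have almost disjoint value groups modulo `K` -/
lemma lifts {w b y k : S.G} (hw : w ∉ K) (hb : b ∈ K) (hb1 : b ≠ 1) (hk : k ∈ K)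
    (h1 : S.q w y = S.zero) (h2 : S.q (b * w) (k * y) = S.zero) : y = 1 ∨ y = S.neg * w := by
  by_cases hyK : y ∈ K
  · exact Or.inl (one_of_both h hK hw hyK h1)
  right
  have hkyK : k * y ∉ K := by
    intro hc
    apply hyK
    have := K.mul_mem hk hc
    rwa [← mul_assoc, h.exp2, one_mul] at this
  have e1 : S.q (k * y) b = S.q (k * y) w := (h.qs3 _ _ _).2 ((h.qs2 _ _).trans h2)
  have e2 : S.q w (k * y) = S.q w k := q_mul_right h h1
  have e3 : S.q b (k * y) = S.q k w := by
    rw [h.qs2, e1, h.qs2 _ w, e2]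
    exact h.qs2 _ _
  by_cases hk1 : k = 1
  · exfalso
    have e4 : S.q b (k * y) = S.zero := by
      rw [e3, hk1, h.qs2]
      exact q_one' h w
    exact hkyK (hK b hb hb1 _ e4)
  have e4 : b = k := slot_unique h hK hk hk1 hw hb e3
  subst e4
  have e5 : S.q b (b * y * w) = S.zero := mul_of_eq h e3
  have e6 : b * y * w ∈ K := hK b hb hb1 _ e5
  have e7 : y * w ∈ K := by
    have := K.mul_mem hb e6
    rwa [mul_assoc b y w, ← mul_assoc b b, h.exp2, one_mul] at this
  have e8 : S.neg * (w * y) ∈ K := K.mul_mem hneg (by rw [mul_comm]; exact e7)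
  have e9 : S.q w (S.neg * (w * y)) = S.zero := by
    rw [← mul_assoc]
    exact q_mul h (h.qs1 w) h1
  have h10 := one_of_both h hK hw e8 e9
  have h11 : y * (S.neg * w) = 1 := by
    rw [mul_comm, mul_assoc]
    exact h10
  exact eq_of_mul' h h11

/-- value group without the trivial elements -/
def Dv (S : QData) (x : S.G) : Type := {y : S.G // S.q x y = S.zero ∧ y ≠ 1 ∧ y ≠ S.neg * x}

lemma card_Dv [Finite S.G] (x : S.G) : vs S x ≤ Nat.card (Dv S x) + 2 := by
  have h1 : {y : S.G | S.q x y = S.zero} ⊆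
      {y : S.G | S.q x y = S.zero ∧ y ≠ 1 ∧ y ≠ S.neg * x} ∪ {1, S.neg * x} := by
    intro y hy
    by_cases hy1 : y = 1
    · exact Or.inr (Or.inl hy1)
    by_cases hy2 : y = S.neg * x
    · exact Or.inr (Or.inr hy2)
    · exact Or.inl ⟨hy, hy1, hy2⟩
  have h2 := Set.ncard_le_ncard h1 (Set.toFinite _)
  have h3 := Set.ncard_union_le {y : S.G | S.q x y = S.zero ∧ y ≠ 1 ∧ y ≠ S.neg * x}
    {1, S.neg * x}
  have h4 := Set.ncard_insert_le (1 : S.G) {S.neg * x}
  rw [Set.ncard_singleton] at h4
  have h5 : {y : S.G | S.q x y = S.zero}.ncard = vs S x := rfl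
  have h6 : {y : S.G | S.q x y = S.zero ∧ y ≠ 1 ∧ y ≠ S.neg * x}.ncard = Nat.card (Dv S x) := rfl
  omega

/-- counting map -/
def cmap (S : QData) (K : Subgroup S.G) (w : S.G) :
    (Σ b : K, Dv S (b * w) × K) ⊕ (K ⊕ K) → S.G
  | Sum.inl p => p.2.1.1 * p.2.2
  | Sum.inr (Sum.inl k) => k
  | Sum.inr (Sum.inr k) => w * k

include h hneg hK in
lemma cmap_injective {w : S.G} (hw : w ∉ K) : Function.Injective (cmap S K w) := by
  have out : ∀ b ∈ K, b * w ∉ K := by
    intro b hb hc
    apply hw
    have := K.mul_mem hb hc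
    rwa [← mul_assoc, h.exp2, one_mul] at this
  have c1 : ∀ (b k k' y : S.G), b ∈ K → k ∈ K → k' ∈ K → S.q (b * w) y = S.zero → y ≠ 1 →
      y * k ≠ k' := by
    intro b k k' y hb hk hk' hy hy1 e
    apply hy1
    refine one_of_both h hK (out b hb) ?_ hy
    have := K.mul_mem hk' hk
    rwa [← e, mul_assoc, h.exp2, mul_one] at this
  have c2 : ∀ (b k k' y : S.G), b ∈ K → k ∈ K → k' ∈ K → S.q (b * w) y = S.zero →
      y ≠ S.neg * (b * w) → y * k ≠ w * k' := by
    intro b k k' y hb hk hk' hy hy1 e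
    apply hy1
    have e1 : y * (b * w) = b * (k * k') := by
      have e2 : y * k * (k * (b * w)) = w * k' * (k * (b * w)) := by rw [e]
      have e3 : y * k * (k * (b * w)) = y * (k * k) * (b * w) := by simp only [mul_assoc]
      have e4 : w * k' * (k * (b * w)) = w * w * (b * (k * k')) := by
        ac_rfl
      rw [e3, e4, h.exp2, h.exp2, mul_one, one_mul] at e2
      exact e2
    have e5 : S.neg * (b * w * y) ∈ K := by
      rw [mul_comm (b * w), e1]
      exact K.mul_mem hneg (K.mul_mem hb (K.mul_mem hk hk'))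
    have e6 : S.q (b * w) (S.neg * (b * w * y)) = S.zero := by
      rw [← mul_assoc S.neg]
      exact q_mul h (h.qs1 _) hy
    have e7 := one_of_both h hK (out b hb) e5 e6
    have e8 : y * (S.neg * (b * w)) = 1 := by
      rw [mul_comm, mul_assoc]
      exact e7
    exact eq_of_mul' h e8
  rintro (⟨⟨b, hb⟩, ⟨y, hy, hy1, hy2⟩, ⟨k, hk⟩⟩ | ⟨k, hk⟩ | ⟨k, hk⟩)
    (⟨⟨b', hb'⟩, ⟨y', hy', hy1', hy2'⟩, ⟨k', hk'⟩⟩ | ⟨k', hk'⟩ | ⟨k', hk'⟩) e
  · have e : y * k = y' * k' := e
    have e1 : y' = k * k' * y := by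
      have : y' * k' * k' = y * k * k' := by rw [e]
      rw [mul_assoc, h.exp2, mul_one] at this
      rw [this, mul_assoc, mul_comm]
    by_cases hbb : b = b'
    · subst hbb
      have e2 : y * y' ∈ K := by
        have : y * y' = y * y * (k * k') := by
          rw [e1, mul_comm (k * k'), ← mul_assoc]
        rw [this, h.exp2, one_mul]
        exact K.mul_mem hk hk'
      have e3 : y * y' = 1 := one_of_both h hK (out b hb) e2 (q_mul h hy hy')
      have e4 : y = y' := eq_of_mul' h e3
      subst e4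
      have e5 : k = k' := mul_left_cancel e
      subst e5
      rfl
    · exfalso
      have hne : b' * b ≠ 1 := fun e5 => hbb (eq_of_mul' h e5).symm
      have e2 : b' * b * (b * w) = b' * w := by
        rw [mul_assoc, ← mul_assoc b b, h.exp2, one_mul]
      have e3 : S.q (b' * b * (b * w)) (k * k' * y) = S.zero := by
        rw [e2, ← e1]
        exact hy'
      rcases lifts h hneg hK (out b hb) (K.mul_mem hb' hb) hne (K.mul_mem hk hk') hy e3 with
        h5 | h5
      · exact hy1 h5
      · exact hy2 h5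
  · exact absurd e (c1 b k k' y hb hk hk' hy hy1)
  · exact absurd e (c2 b k k' y hb hk hk' hy hy2)
  · exact absurd e.symm (c1 b' k' k y' hb' hk' hk hy' hy1')
  · have e : k = k' := e
    subst e
    rfl
  · exfalso
    have e : k = w * k' := e
    apply hw
    have := K.mul_mem hk hk'
    rwa [e, mul_assoc, h.exp2, mul_one] at this
  · exact absurd e.symm (c2 b' k' k y' hb' hk' hk hy' hy2')
  · exfalso
    have e : w * k = k' := e
    apply hw
    have := K.mul_mem hk' hk
    rwa [← e, mul_assoc, h.exp2, mul_one] at this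
  · have e : w * k = w * k' := e
    have e5 : k = k' := mul_left_cancel e
    subst e5
    rfl

include h hneg hK in
lemma count [Finite S.G] {w : S.G} (hw : w ∉ K) (n : ℕ) (hn : ∀ b ∈ K, n ≤ vs S (b * w)) :
    Nat.card K * ((n - 2) * Nat.card K) + 2 * Nat.card K ≤ Nat.card S.G := by
  classical
  have := Fintype.ofFinite K
  have fD : ∀ b : K, Finite (Dv S (b * w)) := fun b => by
    unfold Dv
    infer_instance
  have h1 := Nat.card_le_card_of_injective _ (cmap_injective h hneg hK hw)
  rw [Nat.card_sum, Nat.card_sum, Nat.card_sigma] at h1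
  have h2 : Nat.card K * ((n - 2) * Nat.card K) ≤
      ∑ b : K, Nat.card (Dv S (b * w) × K) := by
    have h3 : (Finset.univ : Finset K).card • ((n - 2) * Nat.card K) ≤
        ∑ b : K, Nat.card (Dv S (b * w) × K) := by
      refine Finset.card_nsmul_le_sum _ _ _ ?_
      intro b _
      rw [Nat.card_prod]
      refine Nat.mul_le_mul_right _ ?_
      have h4 := hn b.1 b.2
      have h5 := card_Dv (S := S) (b.1 * w)
      omega
    rw [Finset.card_univ, ← Nat.card_eq_fintype_card, smul_eq_mul] at h3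
    exact h3
  omega

include h in
lemma vs_three [Finite S.G] {x : S.G} (hx : x ≠ S.neg) (hr : ¬ Hr S x) : 4 ≤ vs S x := by
  unfold Hr at hr
  push Not at hr
  obtain ⟨e, he, he1, he2⟩ := hr
  have hsub : ({1, S.neg * x, e, S.neg * x * e} : Set S.G) ⊆ {c : S.G | S.q x c = S.zero} := by
    rintro c (rfl | rfl | rfl | rfl)
    · exact q_one' h x
    · exact h.qs1 x
    · exact he
    · exact q_mul h (h.qs1 x) he
  have h5 := Set.ncard_le_ncard hsub (Set.toFinite _)
  have n1 : (1 : S.G) ≠ S.neg * x := (neg_mul_ne h hx).symm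
  have n2 : S.neg * x * e ≠ 1 := fun hc => he2 (eq_of_mul' h hc).symm
  have h6 : ({1, S.neg * x, e, S.neg * x * e} : Set S.G).ncard = 4 := by
    rw [Set.ncard_insert_of_notMem, Set.ncard_eq_three.2]
    · refine ⟨S.neg * x, e, S.neg * x * e, he2.symm, ?_, ?_, rfl⟩
      · intro hc
        exact he1 (left_eq_mul.1 hc)
      · intro hc
        exact n1 (right_eq_mul.1 hc).symm
    · rintro (hc | hc | hc)
      · exact n1 hc
      · exact he1 hc.symm
      · exact n2 hc.symm
  have h7 : {c : S.G | S.q x c = S.zero}.ncard = vs S x := rfl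
  omega

lemma vs_rigid [Finite S.G] {x : S.G} (hr : Hr S x) : vs S x ≤ 2 := by
  have hsub : {b : S.G | S.q x b = S.zero} ⊆ ({1, S.neg * x} : Set S.G) := fun c hc => hr c hc
  have h5 := Set.ncard_le_ncard hsub (Set.toFinite _)
  have h6 := Set.ncard_insert_le (1 : S.G) ({S.neg * x} : Set S.G)
  rw [Set.ncard_singleton] at h6
  have h7 : {b : S.G | S.q x b = S.zero}.ncard = vs S x := rfl
  omega

include h hneg hK in
/-- **Main theorem.** If no element of `K` is rigid, and the index of `K` is not large compared to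
the order of `K` and of a value group in `K`, then all elements outside of `K` are rigid. -/
theorem rigid_of_count [Finite S.G] (hR : ∀ b ∈ K, b ≠ 1 → b ≠ S.neg → ¬ Hr S b) {a : S.G}
    (ha : a ∈ K) (ha1 : a ≠ 1) (ha2 : a ≠ S.neg)
    (hc : Nat.card S.G < Nat.card K * ((vs S a - 2) * Nat.card K) + 2 * Nat.card K) {w : S.G}
    (hw : w ∉ K) : Hr S w := by
  by_contra hr
  have out : ∀ b ∈ K, b * w ∉ K := by
    intro b hb hc
    apply hw
    have := K.mul_mem hb hc
    rwa [← mul_assoc, h.exp2, one_mul] at this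
  have big : ∀ b z : S.G, b ∈ K → b ≠ 1 → b ≠ S.neg → z ∉ K → ¬ Hr S z → ¬ Hr S (b * z) := by
    intro b z hb hb1 hb2 hz hrz hc'
    have h1 := vs_three h hb2 (hR b hb hb1 hb2)
    have h2 := vs_le_mul h hK hb hb1 hz hrz
    have h3 := vs_rigid hc'
    omega
  have cl : ∀ b ∈ K, ¬ Hr S (b * w) := by
    intro b hb
    by_cases hb1 : b = 1
    · rw [hb1, one_mul]; exact hr
    by_cases hb2 : b = S.neg
    · have e1 : b * w = a * (S.neg * a * w) := by
        rw [hb2, ← mul_assoc, mul_left_comm a, h.exp2, mul_one]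
      have hna : S.neg * a ∈ K := K.mul_mem hneg ha
      have n1 : S.neg * a ≠ 1 := neg_mul_ne h ha2
      have n2 : S.neg * a ≠ S.neg := fun e => ha1 (mul_eq_left.1 e)
      rw [e1]
      exact big a _ ha ha1 ha2 (out _ hna) (big _ w hna n1 n2 hw hr)
    · exact big b w hb hb1 hb2 hw hr
  have hn : ∀ b ∈ K, vs S a ≤ vs S (b * w) := by
    intro b hb
    have e1 : b * w = a * (a * b * w) := by
      rw [mul_assoc a b w, ← mul_assoc, h.exp2, one_mul]
    rw [e1]
    have hab : a * b ∈ K := K.mul_mem ha hb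
    exact vs_le_mul h hK ha ha1 (out _ hab) (cl _ hab)
  have := count h hneg hK hw _ hn
  omega

end

end Pool.Agent.H86.SG
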