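import Pool.Agent.H86.SG.Fin

/-! Definitions for the statements on the splitting graph. -/

set_option autoImplicit false

namespace Pool.Agent.H86.SG

open Pool.Agent.H315R3.ETC Pool.Agent.TH188.ET

/-- `F` has characteristic `≠ 2` and finitely many square classes -/
def Finitary (F : Type) [Field F] : Prop := (2 : F) ≠ 0 ∧ (squares F).index ≠ 0

/-- any two vertices which are not isolated have distance at most three -/
def ShortDistances (F : Type) [Field F] : Prop :=
  ∀ x y : Cl F, x ≠ 1 → y ≠ 1 → ¬ Isolated x → ¬ Isolated y → Dist 3 x y

end Pool.Agent.H86.SG
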