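import Mathlib
import Pool.Agent.H86.SG.RDefs
import Pool.Agent.H86.SG.Max

set_option autoImplicit false

/-! Fields whose splitting graph has a subgroup closed under neighbours which contains a vertex of
large degree. -/

namespace Pool.Agent.H86.SG

open scoped Quaternion
open Pool.Agent.H315R3.ETC Pool.Agent.TH188.ET Pool.Agent.Y920.ETC

/-- number of neighbours in the splitting graph -/
noncomputable def degree {F : Type} [Field F] (x : Cl F) : ℕ := {y | Adj x y}.ncard

/-- with a vertex, `H` contains all its neighbours -/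
def NormClosed {F : Type} [Field F] (H : Subgroup (Cl F)) : Prop :=
  ∀ x ∈ H, ∀ y, Adj x y → y ∈ H

/-- no vertex outside of `H` has more neighbours than `a`, or the index of `H` is at most the
number of the classes represented by the norm form `u² - a v²` -/
def Dominates {F : Type} [Field F] (H : Subgroup (Cl F)) (a : Cl F) : Prop :=
  (∀ g : Cl F, g ∉ H → degree g ≤ degree a) ∨ H.index ≤ degree a + 1

/-- all vertices outside of `H` are isolated, and `F` has the structure of an iterated group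
extension of a structure of the order of `H`, which is of elementary type if and only if `F` is -/
def ExtensionOf {F : Type} [Field F] (H : Subgroup (Cl F)) : Prop :=
  (∀ y, y ∉ H → Isolated y) ∧ ∃ (k : ℕ) (T : QData), IsQuat T ∧ Nat.card T.G = Nat.card H ∧
    2 ^ k = H.index ∧ IsStructureOf F (ext^[k] T) ∧ (ElementaryType F ↔ Elem T)

/-- `F` has a `2`-henselian valuation with residue characteristic not two, and the residue field
has at most `m` square classes and at most half as many square classes as `F` -/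
def HenselianVal (F : Type) [Field F] (m : ℕ) : Prop :=
  ∃ O : ValuationSubring F, (2 : F)⁻¹ ∈ O ∧
    (∀ x : F, x ∈ O → x⁻¹ ∉ O → IsSquare (1 + x)) ∧
    (2 : IsLocalRing.ResidueField O) ≠ 0 ∧
    (squares (IsLocalRing.ResidueField O)).index ≤ m ∧
    2 * (squares (IsLocalRing.ResidueField O)).index ≤ (squares F).index

lemma ext_one (k : ℕ) (T : QData) (hT : T.q 1 1 = T.zero) :
    (ext^[k] T).q 1 1 = (ext^[k] T).zero := by
  induction k with
  | zero => exact hT
  | succ k ih =>
    rw [Function.iterate_succ_apply']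
    show (((ext^[k] T).q 1 1, pw (pw (ext^[k] T).neg 1) 1 * pw 1 1 * pw 1 1) :
      (ext^[k] T).Q × (ext^[k] T).G) = ((ext^[k] T).zero, 1)
    rw [ih]
    simp [pw]

theorem max_group {F : Type} [Field F] (hF : Finitary F) (H : Subgroup (Cl F)) (hH : NormClosed H)
    (hn1 : mone F ∈ H) {a : Cl F} (ha : a ∈ H) (ha1 : a ≠ 1) (ha2 : a ≠ mone F)
    (hm : Dominates H a) : ExtensionOf H := by
  obtain ⟨h2, hfin⟩ := hF
  obtain ⟨S, hS, hSf, h⟩ := exists_structure h2 (finSq_of_index hfin)
  have hS' := hS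
  obtain ⟨φ, hs, hk, hn, h0, hq⟩ := hS
  have hclf : Finite (Cl F) := Nat.finite_of_card_ne_zero hfin
  let e := eqv hs hk
  have hen : e (mone F) = S.neg := eqv_mone hs hk hn
  let K : Subgroup S.G := H.comap e.symm.toMonoidHom
  have memK : ∀ x : Cl F, e x ∈ K ↔ x ∈ H := by
    intro x
    show e.symm (e x) ∈ H ↔ x ∈ H
    rw [MulEquiv.symm_apply_apply]
  have hneg : S.neg ∈ K := by rw [← hen]; exact (memK _).2 hn1
  have hadj : ∀ x y : Cl F, Adj x y ↔ Ad S (e x) (e y) := adj_iff hs hk h0 hq h2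
  have hK : ∀ u ∈ K, u ≠ 1 → ∀ z, S.q u z = S.zero → z ∈ K := by
    intro u hu hu1 z hz
    by_cases hz1 : z = 1
    · rw [hz1]; exact K.one_mem
    obtain ⟨x, rfl⟩ := e.surjective u
    obtain ⟨y, rfl⟩ := e.surjective z
    exact (memK y).2 (hH x ((memK x).1 hu) y ((hadj x y).2 ⟨hu1, hz1, hz⟩))
  have e1 : ∀ x : Cl F, e x ≠ 1 ↔ x ≠ 1 := fun x => not_congr (MulEquiv.map_eq_one_iff e)
  have e2 : ∀ x : Cl F, e x ≠ S.neg ↔ x ≠ mone F := fun x => by
    rw [← hen]
    exact not_congr e.injective.eq_iff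
  have hvs : ∀ x : Cl F, x ≠ 1 → vs S (e x) = degree x + 1 := by
    intro x hx
    have h3 : {z : S.G | S.q (e x) z = S.zero} = insert 1 (e '' {y | Adj x y}) := by
      refine Set.ext fun z => ⟨?_, ?_⟩
      · intro hz
        by_cases hz1 : z = 1
        · exact Or.inl hz1
        obtain ⟨y, rfl⟩ := e.surjective z
        exact Or.inr ⟨y, (hadj x y).2 ⟨(e1 x).2 hx, hz1, hz⟩, rfl⟩
      · rintro (rfl | ⟨y, hy, rfl⟩)
        · exact q_one' h _
        · exact ((hadj x y).1 hy).2.2
    have h4 : vs S (e x) = {z : S.G | S.q (e x) z = S.zero}.ncard := rfl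
    rw [h4, h3, Set.ncard_insert_of_notMem, Set.ncard_image_of_injective _ e.injective]
    · rfl
    · rintro ⟨y, hy, hy1⟩
      exact ((hadj x y).1 hy).2.1 hy1
  have hcl : Nat.card (Cl F) = Nat.card S.G := Nat.card_congr e.toEquiv
  have hcK : Nat.card K = Nat.card H := by
    refine Nat.card_congr ?_
    refine Equiv.subtypeEquiv e.symm.toEquiv ?_
    intro x
    exact Iff.rfl
  have hci : Nat.card H * H.index = Nat.card (Cl F) := H.card_mul_index
  have hmax : ∀ g : S.G, g ∉ K → vs S g ≤ vs S (e a) := by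
    intro g hg
    rcases hm with hm | hm
    · obtain ⟨x, rfl⟩ := e.surjective g
      have hx : x ∉ H := fun hc => hg ((memK x).2 hc)
      have hx1 : x ≠ 1 := by rintro rfl; exact hx H.one_mem
      rw [hvs x hx1, hvs a ha1]
      exact Nat.add_le_add_right (hm x hx) 1
    · refine vs_le_of_index h K hK ?_ hg
      rw [hvs a ha1, hcK, ← hcl, ← hci]
      exact Nat.mul_le_mul_left _ hm
  have hrig : ∀ b : S.G, b ∉ K → Hr S b := fun b hb =>
    rigid_outside h K hneg hK ((memK a).2 ha) ((e1 a).2 ha1) ((e2 a).2 ha2) hmax hb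
  have hbi : ∀ b : S.G, b ∉ K → Bi S b := by
    intro b hb
    refine ⟨?_, ?_, hrig b hb, hrig _ ?_⟩
    · rintro rfl; exact hb K.one_mem
    · rintro rfl; exact hb hneg
    · intro hc
      apply hb
      have := K.mul_mem hneg hc
      rwa [← mul_assoc, h.exp2, one_mul] at this
  obtain ⟨hT, hin⟩ := isQuat_restrN h K hneg hbi
  obtain ⟨k, hk1, hk2⟩ := chain _ S h hSf le_rfl K hneg hbi
  have hst : IsStructureOf F (ext^[k] (restrN S K hneg)) :=
    structure_iso hS' (iso_symm hk2) (ext_one k _ (q_one' hT 1))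
  refine ⟨?_, k, restrN S K hneg, hT, hcK, ?_, hst, ?_⟩
  · intro y hy
    rw [isolated_iff hs hk hn h0 hq h2 h]
    exact hbi _ fun hc => hy ((memK y).1 hc)
  · have h3 : 0 < Nat.card H := Nat.card_pos
    refine Nat.eq_of_mul_eq_mul_left h3 ?_
    rw [hci, mul_comm, ← hcK, hk1, hcl]
  · constructor
    · rintro ⟨T, hT', hTs⟩
      exact elem_restr h K hneg hT hin (Elem.iso _ _ hT' (iso_of_structure hTs hS'))
    · intro hT'
      exact ⟨_, elem_iter hT' k, hst⟩

/-- the converse -/
theorem max_group_conv {F : Type} [Field F] (hF : Finitary F) (H : Subgroup (Cl F))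
    (hn1 : mone F ∈ H) {a : Cl F} (ha1 : a ≠ 1) (ha2 : a ≠ mone F)
    (hE : ∀ y, y ∉ H → Isolated y) : NormClosed H ∧ ∀ g : Cl F, g ∉ H → degree g ≤ degree a := by
  obtain ⟨h2, hfin⟩ := hF
  obtain ⟨S, hS, hSf, h⟩ := exists_structure h2 (finSq_of_index hfin)
  obtain ⟨φ, hs, hk, hn, h0, hq⟩ := hS
  have hclf : Finite (Cl F) := Nat.finite_of_card_ne_zero hfin
  let e := eqv hs hk
  have hen : e (mone F) = S.neg := eqv_mone hs hk hn
  have hadj : ∀ x y : Cl F, Adj x y ↔ Ad S (e x) (e y) := adj_iff hs hk h0 hq h2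
  have hsymm : ∀ x y : Cl F, Adj x y → Adj y x := by
    intro x y hxy
    obtain ⟨h3, h4, h5⟩ := (hadj x y).1 hxy
    exact (hadj y x).2 ⟨h4, h3, by rw [h.qs2]; exact h5⟩
  have hmm : mone F * mone F = 1 := by
    apply e.injective
    rw [map_mul, hen, map_one]
    exact h.exp2 _
  constructor
  · intro x hx y hxy
    by_contra hy
    have h3 := (hE y hy).2.2.1 x (hsymm x y hxy)
    apply hy
    have h4 := H.mul_mem hn1 hx
    have h5 : mone F * (mone F * y) = y := by
      rw [← mul_assoc, hmm]; exact one_mul y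
    rw [h3, h5] at h4
    exact h4
  · intro g hg
    have h3 : {y | Adj g y} ⊆ {mone F * g} := fun y hy => (hE g hg).2.2.1 y hy
    have h4 : degree g ≤ 1 := by
      have := Set.ncard_le_ncard h3 (Set.toFinite _)
      rwa [Set.ncard_singleton] at this
    have h5 : ({mone F * a} : Set (Cl F)) ⊆ {y | Adj a y} := by
      rintro y rfl
      have e1 : e a ≠ 1 := fun hc => ha1 ((MulEquiv.map_eq_one_iff e).1 hc)
      have e2 : e a ≠ S.neg := fun hc => ha2 (e.injective (hc.trans hen.symm))
      refine (hadj _ _).2 ?_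
      rw [map_mul, hen]
      exact ⟨e1, neg_mul_ne h e2, h.qs1 _⟩
    have h6 : 1 ≤ degree a := by
      have := Set.ncard_le_ncard h5 (Set.toFinite _)
      rwa [Set.ncard_singleton] at this
    exact h4.trans h6

/-- small groups -/
theorem extension_small {F : Type} [Field F] (hF : Finitary F) (H : Subgroup (Cl F))
    (hE : ExtensionOf H) (hc : Nat.card H ≤ 16) : ElementaryType F := by
  obtain ⟨-, k, T, h1, h2, h3, h4, h5⟩ := hE
  rw [h5]
  have hclf : Finite (Cl F) := Nat.finite_of_card_ne_zero hF.2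
  have hTf : Finite T.G := Nat.finite_of_card_ne_zero (by
    rw [h2]
    exact Nat.card_pos.ne')
  exact Pool.Agent.R675.ETC4.elem_sixteen T h1 (by omega)

/-- valuations -/
theorem extension_val {F : Type} [Field F] (hF : Finitary F) (H : Subgroup (Cl F))
    (hE : ExtensionOf H) (hl : 2 < H.index) : HenselianVal F (2 * Nat.card H) := by
  obtain ⟨hiso, -⟩ := hE
  have hclf : Finite (Cl F) := Nat.finite_of_card_ne_zero hF.2
  obtain ⟨S, hS, hSf, h⟩ := exists_structure hF.1 (finSq_of_index hF.2)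
  obtain ⟨φ, hs, hk, hn, h0, hq⟩ := hS
  obtain ⟨C, hC⟩ := Pool.Agent.Y67.ET.t_BASIC S h
  have hB : ∀ x : Cl F, x ∈ C.comap (eqv hs hk).toMonoidHom ↔ ¬ Isolated x := by
    intro x
    rw [isolated_iff hs hk hn h0 hq hF.1 h]
    exact hC _
  have hle : C.comap (eqv hs hk).toMonoidHom ≤ H := by
    intro x hx
    by_contra hc
    exact (hB x).1 hx (hiso x hc)
  have hcard : Nat.card (C.comap (eqv hs hk).toMonoidHom) ≤ Nat.card H :=
    Nat.card_le_card_of_injective _ (Subgroup.inclusion_injective hle)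
  have hci : Nat.card H * H.index = Nat.card (Cl F) := H.card_mul_index
  have hpos : 0 < Nat.card H := Nat.card_pos
  have hl' : 2 * Nat.card (C.comap (eqv hs hk).toMonoidHom) < Nat.card (Cl F) := by
    rw [← hci]
    nlinarith
  obtain ⟨O, j, T, g1, g2, g3, g4, g5, g6, g7, g8⟩ := valuation hF.1 hF.2 _ hB hl'
  refine ⟨O, g1, g2, g3, by omega, ?_⟩
  rw [← g6]
  have h2j : 2 ≤ 2 ^ j := by
    calc 2 = 2 ^ 1 := (pow_one 2).symm
      _ ≤ 2 ^ j := Nat.pow_le_pow_right (by norm_num) g5
  exact Nat.mul_le_mul_right _ h2j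

end Pool.Agent.H86.SG
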