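import Pool.Agent.H86.SG.Lab2

/-! The criterion for group extensions. -/

set_option autoImplicit false

namespace Pool.Agent.H86.SG

/-- `H` contains the neighbours of its vertices, and
- `a` is not isolated, and `-1` is a square or each vertex `x ≠ -1` of `H` which is adjacent only to
  `-x` is isolated, or
- `a` is as in `Dominates` -/
def Criterion {F : Type} [Field F] (H : Subgroup (Cl F)) (a : Cl F) : Prop :=
  NormClosed H ∧ ((¬ Isolated a ∧ (IsSquare (-1 : F) ∨ RigidIsolated H)) ∨ Dominates H a)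

lemma mone_eq_one {F : Type} [Field F] (hsq : IsSquare (-1 : F)) : mone F = 1 := by
  obtain ⟨b, hb⟩ := hsq
  have hb0 : b ≠ 0 := by
    rintro rfl
    simp at hb
  rw [mone, QuotientGroup.eq_one_iff]
  refine ⟨Units.mk0 b hb0, ?_⟩
  ext
  show ((Units.mk0 b hb0 : Fˣ) ^ 2 : Fˣ).val = _
  rw [Units.val_pow_eq_pow_val, Units.val_mk0, Units.val_neg, Units.val_one, hb, pow_two]

lemma rigidIsolated_of_square {F : Type} [Field F] (hsq : IsSquare (-1 : F))
    (H : Subgroup (Cl F)) : RigidIsolated H := by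
  intro x _ hx1 hx2 hx
  refine ⟨hx1, hx2, hx, ?_⟩
  have h1 : mone F * x = x := by rw [mone_eq_one hsq]; exact one_mul x
  rw [h1]
  intro y hy
  have := hx y hy
  rwa [h1] at this

theorem criterion_extension {F : Type} [Field F] (hF : Finitary F) (H : Subgroup (Cl F))
    (hn : mone F ∈ H) {a : Cl F} (ha : a ∈ H) (h1 : a ≠ 1) (h2 : a ≠ mone F) :
    Criterion H a ↔ ExtensionOf H := by
  constructor
  · rintro ⟨h3, ⟨h4, h5⟩ | h4⟩
    · exact closed_group' hF H h3 hn (h5.elim (fun hsq => rigidIsolated_of_square hsq H) id)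
        ha h1 h2 h4
    · exact max_group hF H h3 hn ha h1 h2 h4
  · intro h
    obtain ⟨h3, h4⟩ := max_group_conv hF H hn h1 h2 h.1
    exact ⟨h3, Or.inr (Or.inl h4)⟩

end Pool.Agent.H86.SG
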