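import Mathlib
import Pool.Agent.H86.SG.Abs
import Pool.Graph.R_seed8.TH673.VG.CritInd

set_option autoImplicit false

/-! Structures of elementary type with `-1 = 1`: any two vertices of the splitting graph which are
not isolated have distance at most three. -/

namespace Pool.Agent.H86.SG

open Pool.Agent.H315R3.ETC Pool.Agent.Y920.ETC Pool.Agent.TH673.VG

/-- `a` is not isolated (if `a ≠ 1` and `-1 = 1`) -/
def NonIso (S : QData) (a : S.G) : Prop := ∃ c, c ≠ 1 ∧ c ≠ a ∧ S.q a c = S.zero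

/-- vertices which are not isolated have distance at most three -/
def Short (S : QData) : Prop := S.neg = 1 → ∀ a b : S.G, a ≠ 1 → b ≠ 1 → NonIso S a → NonIso S b →
  ∃ x y : S.G, Ad S a x ∧ Ad S x y ∧ Ad S y b

lemma c2_no {a c : C2} (ha : a ≠ 1) (hc : c ≠ 1) (hca : c ≠ a) : False := by
  rcases C2_cases a with h | h
  · exact ha h
  · rcases C2_cases c with h' | h'
    · exact hc h'
    · exact hca (h'.trans h.symm)

lemma short_local {S : QData} (hS : IsLocal S) : Short S := by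
  obtain ⟨h, hf, h8, -, hc⟩ := hS
  intro hn a b ha hb _ _
  have sy : ∀ x y : S.G, S.q x y = S.q y x := h.qs2
  let T : Set S.Q := {t : S.Q | ∃ a b : S.G, S.q a b = t}
  have hT : Nat.card T = 2 := hc
  have hTf : Finite T := Nat.finite_of_card_ne_zero (by omega)
  let f : S.G → T × T := fun c => (⟨S.q a c, ⟨a, c, rfl⟩⟩, ⟨S.q b c, ⟨b, c, rfl⟩⟩)
  have hni : ¬ Function.Injective f := by
    intro hi
    have h1 := Nat.card_le_card_of_injective f hi
    rw [Nat.card_prod, hT] at h1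
    omega
  unfold Function.Injective at hni
  push Not at hni
  obtain ⟨c, d, hcd, hne⟩ := hni
  have e1 : S.q a c = S.q a d := congrArg (fun z : T × T => (z.1 : S.Q)) hcd
  have e2 : S.q b c = S.q b d := congrArg (fun z : T × T => (z.2 : S.Q)) hcd
  have hx : c * d ≠ 1 := mul_ne h hne
  refine ⟨c * d, c * d, ⟨ha, hx, mul_of_eq h e1⟩, ⟨hx, hx, q_self h hn _⟩, ⟨hx, hb, ?_⟩⟩
  rw [sy]
  exact mul_of_eq h e2

lemma short_prod {A B : QData} (hA : IsQuat A) (hB : IsQuat B) (i1 : Short A) (i2 : Short B) :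
    Short (prod A B) := by
  intro hn
  have hnA : A.neg = 1 := congrArg Prod.fst hn
  have hnB : B.neg = 1 := congrArg Prod.snd hn
  have a1 : ∀ x : A.G, A.q x 1 = A.zero := q_one' hA
  have a2 : ∀ x : A.G, A.q 1 x = A.zero := fun x => by rw [hA.qs2]; exact a1 x
  have b1 : ∀ x : B.G, B.q x 1 = B.zero := q_one' hB
  have b2 : ∀ x : B.G, B.q 1 x = B.zero := fun x => by rw [hB.qs2]; exact b1 x
  have sA : ∀ x : A.G, A.q x x = A.zero := q_self hA hnA
  have sB : ∀ x : B.G, B.q x x = B.zero := q_self hB hnB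
  have n1 : ∀ (x : A.G) (y : B.G), x ≠ 1 → ((x, y) : A.G × B.G) ≠ 1 := fun x y hx e =>
    hx (congrArg Prod.fst e)
  have n2 : ∀ (x : A.G) (y : B.G), y ≠ 1 → ((x, y) : A.G × B.G) ≠ 1 := fun x y hy e =>
    hy (congrArg Prod.snd e)
  rintro ⟨a, a'⟩ ⟨b, b'⟩ ha hb hna hnb
  by_cases h1 : a ≠ 1 ∧ b' ≠ 1
  · exact ⟨(a, 1), (1, b'), ⟨ha, n1 _ _ h1.1, Prod.ext (sA a) (b1 a')⟩,
      ⟨n1 _ _ h1.1, n2 _ _ h1.2, Prod.ext (a1 a) (b2 b')⟩,
      ⟨n2 _ _ h1.2, hb, Prod.ext (a2 b) (sB b')⟩⟩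
  by_cases h2 : a' ≠ 1 ∧ b ≠ 1
  · exact ⟨(1, a'), (b, 1), ⟨ha, n2 _ _ h2.1, Prod.ext (a1 a) (sB a')⟩,
      ⟨n2 _ _ h2.1, n1 _ _ h2.2, Prod.ext (a2 b) (b1 a')⟩,
      ⟨n1 _ _ h2.2, hb, Prod.ext (sA b) (b2 b')⟩⟩
  by_cases h3 : a = 1
  · subst h3
    have ha' : a' ≠ 1 := fun e => ha (by rw [e]; rfl)
    have hb1 : b = 1 := by
      by_contra hc
      exact h2 ⟨ha', hc⟩
    subst hb1
    have hb' : b' ≠ 1 := fun e => hb (by rw [e]; rfl)
    by_cases hc : ∃ c : A.G, c ≠ 1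
    · obtain ⟨c, hc⟩ := hc
      exact ⟨(c, 1), (c, 1), ⟨ha, n1 _ _ hc, Prod.ext (a2 c) (b1 a')⟩,
        ⟨n1 _ _ hc, n1 _ _ hc, Prod.ext (sA c) (b1 1)⟩,
        ⟨n1 _ _ hc, hb, Prod.ext (a1 c) (b2 b')⟩⟩
    · push Not at hc
      have key : ∀ z : B.G, NonIso (prod A B) ((1, z) : A.G × B.G) → NonIso B z := by
        rintro z ⟨⟨c, d⟩, hc1, hc2, hc3⟩
        refine ⟨d, fun e => hc1 (Prod.ext (hc c) e), fun e => hc2 (Prod.ext (hc c) e),
          congrArg Prod.snd hc3⟩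
      obtain ⟨x, y, h4, h5, h6⟩ := i2 hnB a' b' ha' hb' (key _ hna) (key _ hnb)
      exact ⟨(1, x), (1, y), ⟨ha, n2 _ _ h4.2.1, Prod.ext (a1 1) h4.2.2⟩,
        ⟨n2 _ _ h4.2.1, n2 _ _ h5.2.1, Prod.ext (a1 1) h5.2.2⟩,
        ⟨n2 _ _ h5.2.1, hb, Prod.ext (a1 1) h6.2.2⟩⟩
  · have hb'1 : b' = 1 := by
      by_contra hc
      exact h1 ⟨h3, hc⟩
    subst hb'1
    have hb1 : b ≠ 1 := fun e => hb (by rw [e]; rfl)
    have ha'1 : a' = 1 := by
      by_contra hc
      exact h2 ⟨hc, hb1⟩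
    subst ha'1
    by_cases hc : ∃ c : B.G, c ≠ 1
    · obtain ⟨c, hc⟩ := hc
      exact ⟨(1, c), (1, c), ⟨ha, n2 _ _ hc, Prod.ext (a1 a) (b2 c)⟩,
        ⟨n2 _ _ hc, n2 _ _ hc, Prod.ext (a1 1) (sB c)⟩,
        ⟨n2 _ _ hc, hb, Prod.ext (a2 b) (b1 c)⟩⟩
    · push Not at hc
      have key : ∀ z : A.G, NonIso (prod A B) ((z, 1) : A.G × B.G) → NonIso A z := by
        rintro z ⟨⟨c, d⟩, hc1, hc2, hc3⟩
        refine ⟨c, fun e => hc1 (Prod.ext e (hc d)), fun e => hc2 (Prod.ext e (hc d)),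
          congrArg Prod.fst hc3⟩
      obtain ⟨x, y, h4, h5, h6⟩ := i1 hnA a b h3 hb1 (key _ hna) (key _ hnb)
      exact ⟨(x, 1), (y, 1), ⟨ha, n1 _ _ h4.2.1, Prod.ext h4.2.2 (b1 1)⟩,
        ⟨n1 _ _ h4.2.1, n1 _ _ h5.2.1, Prod.ext h5.2.2 (b1 1)⟩,
        ⟨n1 _ _ h5.2.1, hb, Prod.ext h6.2.2 (b1 1)⟩⟩

lemma short_ext {S : QData} (hS : IsQuat (fz S)) (ih : Short (fz S)) : Short (fz (ext S)) := by
  intro hn
  have hnS : S.neg = 1 := congrArg Prod.fst hn
  have p11 : ∀ x : S.G, pw x 1 = 1 := fun x => if_pos rfl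
  have p1 : ∀ β : C2, pw (1 : S.G) β = 1 := fun β => by
    unfold pw
    split_ifs <;> rfl
  have hz : (fz (ext S)).zero = (S.q 1 1, 1) := by
    show (S.q 1 1, pw (pw S.neg 1) 1 * pw (1 : S.G) 1 * pw 1 1) = (S.q 1 1, 1)
    simp [p11]
  have key : ∀ u : S.G × C2, NonIso (fz (ext S)) u → u.2 = 1 ∧ (u ≠ 1 → u.1 ≠ 1 ∧
      NonIso (fz S) u.1) := by
    rintro ⟨a, α⟩ ⟨⟨c, γ⟩, hc1, hc2, hc3⟩
    rcases C2_cases α with rfl | rfl
    · refine ⟨rfl, fun ha => ?_⟩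
      have ha1 : a ≠ 1 := fun e => ha (by rw [e]; rfl)
      refine ⟨ha1, ?_⟩
      rw [hz] at hc3
      have e1 : S.q a c = S.q 1 1 := congrArg Prod.fst hc3
      have e2 : pw (pw S.neg 1) γ * pw a γ * pw c 1 = 1 := congrArg Prod.snd hc3
      rw [p11, p11, p1, one_mul, mul_one] at e2
      rcases C2_cases γ with rfl | rfl
      · refine ⟨c, fun e => hc1 (by rw [e]; rfl), fun e => hc2 (by rw [e]), e1⟩
      · exfalso
        apply ha1
        rw [← e2]
        unfold pw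
        rw [if_neg gen_ne]
    · exfalso
      rcases ext_rigid hS hnS a (c, γ) hc3 with h1 | h1
      · exact hc1 h1
      · exact hc2 h1
  rintro ⟨a, α⟩ ⟨b, β⟩ ha hb hna hnb
  obtain ⟨hα, hka⟩ := key _ hna
  obtain ⟨hβ, hkb⟩ := key _ hnb
  obtain ⟨ha1, hna1⟩ := hka ha
  obtain ⟨hb1, hnb1⟩ := hkb hb
  have hα' : α = 1 := hα
  have hβ' : β = 1 := hβ
  subst hα'
  subst hβ'
  obtain ⟨x, y, h4, h5, h6⟩ := ih hnS a b ha1 hb1 hna1 hnb1
  have nn : ∀ x : S.G, x ≠ 1 → ((x, 1) : S.G × C2) ≠ 1 := fun x hx e => hx (congrArg Prod.fst e)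
  have adj : ∀ x y : S.G, Ad (fz S) x y → Ad (fz (ext S)) ((x, 1) : S.G × C2) (y, 1) := by
    rintro x y ⟨g1, g2, g3⟩
    refine ⟨nn x g1, nn y g2, ?_⟩
    rw [hz]
    show (S.q x y, pw (pw S.neg 1) 1 * pw x 1 * pw y 1) = (S.q 1 1, 1)
    refine Prod.ext g3 ?_
    simp [p11]
  exact ⟨((x, 1) : S.G × C2), ((y, 1) : S.G × C2), adj _ _ h4, adj _ _ h5, adj _ _ h6⟩

lemma short_iso {S T : QData} (hST : Iso S T) (ih : Short (fz S)) : Short (fz T) := by
  obtain ⟨φ, hφ, hq⟩ := hST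
  intro hn
  have hnT : T.neg = 1 := hn
  have hnS : S.neg = 1 := by
    apply φ.injective
    rw [hφ, hnT, map_one]
  have z : ∀ a b : S.G, S.q a b = S.q 1 1 ↔ T.q (φ a) (φ b) = T.q 1 1 := fun a b => by
    rw [hq, map_one]
  have ne : ∀ a : T.G, a ≠ 1 → φ.symm a ≠ 1 := fun a ha e => ha (by
    have := congrArg φ e
    rwa [φ.apply_symm_apply, map_one] at this)
  have nonI : ∀ a : T.G, NonIso (fz T) a → NonIso (fz S) (φ.symm a) := by
    rintro a ⟨(c : T.G), hc1, hc2, hc3⟩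
    have h3 : T.q a c = T.q 1 1 := hc3
    have h4 : S.q (φ.symm a) (φ.symm c) = S.q 1 1 := by
      rw [z, φ.apply_symm_apply, φ.apply_symm_apply]
      exact h3
    exact ⟨φ.symm c, ne c hc1, fun e => hc2 (φ.symm.injective e), h4⟩
  have adj : ∀ x y : S.G, Ad (fz S) x y → Ad (fz T) (φ x) (φ y) := by
    rintro x y ⟨g1, g2, g3⟩
    refine ⟨fun e => g1 (φ.injective (e.trans (map_one φ).symm)),
      fun e => g2 (φ.injective (e.trans (map_one φ).symm)), (z x y).1 g3⟩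
  intro (a : T.G) (b : T.G) ha hb hna hnb
  obtain ⟨x, y, h4, h5, h6⟩ := ih hnS (φ.symm a) (φ.symm b) (ne a ha) (ne b hb) (nonI a hna)
    (nonI b hnb)
  have h4' := adj _ _ h4
  have h6' := adj _ _ h6
  have ea : φ (φ.symm a) = a := φ.apply_symm_apply a
  have eb : φ (φ.symm b) = b := φ.apply_symm_apply b
  rw [ea] at h4'
  rw [eb] at h6'
  exact ⟨φ x, φ y, h4', adj _ _ h5, h6'⟩

theorem short_aux (S : QData) (hE : Elem S) : IsQuat (fz S) → Short (fz S) := by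
  induction hE with
  | l0 => exact fun _ _ a _ ha _ _ _ => absurd (Subsingleton.elim (α := Unit) a ()) ha
  | l10 =>
    rintro _ _ a _ ha _ ⟨c, hc1, hc2, -⟩ _
    exact (c2_no ha hc1 hc2).elim
  | l11 =>
    rintro _ _ a _ ha _ ⟨c, hc1, hc2, -⟩ _
    exact (c2_no ha hc1 hc2).elim
  | l1 =>
    rintro _ _ a _ ha _ ⟨c, hc1, hc2, -⟩ _
    exact (c2_no ha hc1 hc2).elim
  | loc S hS =>
    intro _
    rw [fz_eq hS.1]
    exact short_local hS
  | prod S T _ _ ih1 ih2 =>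
    intro h
    have h' : IsQuat (prod (fz S) (fz T)) := h
    exact short_prod (isQuat_left h') (isQuat_right h') (ih1 (isQuat_left h'))
      (ih2 (isQuat_right h'))
  | ext S _ ih =>
    intro h
    exact short_ext (isQuat_of_ext h) (ih (isQuat_of_ext h))
  | iso S T _ hST ih =>
    intro h
    exact short_iso hST (ih (isQuat_of_iso hST h))

theorem short_of_elem {S : QData} (h : IsQuat S) (hE : Elem S) : Short S := by
  have h1 := short_aux S hE
  rw [fz_eq h] at h1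
  exact h1 h

/-- structures of elementary type satisfy the diameter condition -/
theorem diam_of_elem {S : QData} (h : IsQuat S) (hn : S.neg = 1) (hE : Elem S) : Diam S := by
  have hs := short_of_elem h hE hn
  have iso : ∀ a b : S.G, a ≠ 1 → ¬ NonIso S a → Co S a b → b = a := by
    intro a b ha hna hab
    induction hab with
    | refl => rfl
    | tail _ h2 ih =>
      by_contra hc
      rw [ih] at h2
      exact hna ⟨_, h2.2.1, hc, h2.2.2⟩
  have self : ∀ a : S.G, a ≠ 1 → Ad S a a := fun a ha => ⟨ha, ha, q_self h hn a⟩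
  have non : ∀ a b : S.G, a ≠ 1 → Co S a b → NonIso S a → NonIso S b := by
    intro a b ha hab hna
    by_contra hc
    have := iso b a (co_ne hab ha) hc (co_symm h hab)
    rw [this] at hna
    exact hc hna
  refine ⟨?_, ?_⟩
  · intro a b ha hab
    by_cases hna : NonIso S a
    · exact hs a b ha (co_ne hab ha) hna (non a b ha hab hna)
    · rw [iso a b ha hna hab]
      exact ⟨a, a, self a ha, self a ha, self a ha⟩
  · intro a b c d ha hc hab hcd h1 h2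
    have hna : NonIso S a := by
      by_contra hc'
      apply h1
      rw [iso a b ha hc' hab]
      exact ⟨a, self a ha, self a ha⟩
    have hnc : NonIso S c := by
      by_contra hc'
      apply h2
      rw [iso c d hc hc' hcd]
      exact ⟨c, self c hc, self c hc⟩
    obtain ⟨x, y, h4, h5, h6⟩ := hs a c ha hc hna hnc
    exact ((Relation.ReflTransGen.single h4).tail h5).tail h6

end Pool.Agent.H86.SG
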