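import Mathlib
import Pool.Agent.H86.SG.Nec
import Pool.Agent.H86.SG.Two
import Pool.Graph.R_seed8.Y920.ETC.FieldR
import Pool.Graph.R_seed8.Y620.ET.Res

set_option autoImplicit false

/-! The splitting graph of a field: definitions and comparison with the quaternionic structure. -/

namespace Pool.Agent.H86.SG

open scoped Quaternion
open Pool.Agent.H315R3.ETC Pool.Agent.TH188.ET Pool.Agent.Y920.ETC

/-- the group of squares of `F*` -/
def squares (F : Type) [Field F] : Subgroup Fˣ := (powMonoidHom 2 : Fˣ →* Fˣ).range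

/-- the group of square classes -/
abbrev Cl (F : Type) [Field F] : Type := Fˣ ⧸ squares F

/-- adjacency in the splitting graph: the vertices are the square classes `x ≠ 1`, and `x`, `y` are
adjacent if `b = u² - a v²` has a solution for representatives `a`, `b`, that is, if the quaternion
algebra `(a,b)` is split -/
def Adj {F : Type} [Field F] (x y : Cl F) : Prop :=
  x ≠ 1 ∧ y ≠ 1 ∧ ∃ a b : Fˣ, (a : Cl F) = x ∧ (b : Cl F) = y ∧ ∃ u v : F, (b : F) = u ^ 2 - a * v ^ 2

/-- there is a walk from `x` to `y` with at most `n` steps `r` -/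
def Within {V : Type} (r : V → V → Prop) : ℕ → V → V → Prop
  | 0, x, y => x = y
  | n + 1, x, y => Within r n x y ∨ ∃ z, Within r n x z ∧ r z y

/-- `x` and `y` have distance at most `n` in the splitting graph -/
def Dist {F : Type} [Field F] (n : ℕ) (x y : Cl F) : Prop := Within Adj n x y

/-- `x` and `y` are in the same component of the splitting graph -/
def Conn {F : Type} [Field F] (x y : Cl F) : Prop := ∃ n, Dist n x y

/-- the class of `-1` -/
def mone (F : Type) [Field F] : Cl F := ((-1 : Fˣ) : Cl F)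

/-- the only neighbour of `x` is `-x`, and the only neighbour of `-x` is `x` (isolated vertices, if
`-1` is a square) -/
def Isolated {F : Type} [Field F] (x : Cl F) : Prop :=
  x ≠ 1 ∧ x ≠ mone F ∧ (∀ y, Adj x y → y = mone F * x) ∧ ∀ y, Adj (mone F * x) y → y = x

/-- all components have diameter at most two, or `-1` is a square, all components have diameter at
most three and all but at most one have diameter at most two -/
def NarrowGraph (F : Type) [Field F] : Prop :=
  (∀ x y : Cl F, x ≠ 1 → Conn x y → Dist 2 x y) ∨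
  (IsSquare (-1 : F) ∧ (∀ x y : Cl F, x ≠ 1 → Conn x y → Dist 3 x y) ∧
    ∀ x y z w : Cl F, x ≠ 1 → z ≠ 1 → Conn x y → Conn z w → ¬ Dist 2 x y → ¬ Dist 2 z w →
      Conn x z)

/-- the quaternionic structure of `F` is of elementary type -/
def ElementaryType (F : Type) [Field F] : Prop := ∃ S : QData, Elem S ∧ IsStructureOf F S

/-! ### walks -/

section walks
variable {V W : Type} {r : V → V → Prop} {s : W → W → Prop}

lemma rtg_iff {x y : V} : Relation.ReflTransGen r x y ↔ ∃ n, Within r n x y := by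
  constructor
  · intro h
    induction h with
    | refl => exact ⟨0, rfl⟩
    | tail _ h2 ih =>
      obtain ⟨n, hn⟩ := ih
      exact ⟨n + 1, Or.inr ⟨_, hn, h2⟩⟩
  · rintro ⟨n, hn⟩
    induction n generalizing y with
    | zero =>
      have : x = y := hn
      rw [this]
    | succ n ih =>
      rcases hn with h1 | ⟨z, h1, h2⟩
      · exact ih h1
      · exact Relation.ReflTransGen.tail (ih h1) h2

lemma within_equiv (e : V ≃ W) (he : ∀ x y, r x y ↔ s (e x) (e y)) (n : ℕ) (x y : V) :
    Within r n x y ↔ Within s n (e x) (e y) := by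
  induction n generalizing y with
  | zero => exact (Equiv.apply_eq_iff_eq e).symm
  | succ n ih =>
    constructor
    · rintro (h1 | ⟨z, h1, h2⟩)
      · exact Or.inl ((ih y).1 h1)
      · exact Or.inr ⟨e z, (ih z).1 h1, (he z y).1 h2⟩
    · rintro (h1 | ⟨z, h1, h2⟩)
      · exact Or.inl ((ih y).2 h1)
      · obtain ⟨z, rfl⟩ := e.surjective z
        exact Or.inr ⟨z, (ih z).2 h1, (he z y).2 h2⟩

end walks

/-! ### comparison -/

section comp

variable {F : Type} [Field F] {S : QData} {φ : Fˣ →* S.G} (hs : Function.Surjective φ)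
  (hk : ∀ a : Fˣ, φ a = 1 ↔ ∃ b : Fˣ, a = b ^ 2) (hn : φ (-1) = S.neg)
  (h0 : S.q 1 1 = S.zero)
  (hq : ∀ a b c d : Fˣ, S.q (φ a) (φ b) = S.q (φ c) (φ d) ↔
      Nonempty (ℍ[F,(a : F),0,(b : F)] ≃ₐ[F] ℍ[F,(c : F),0,(d : F)]))

/-- the square classes of the field and of the structure -/
noncomputable def eqv : Cl F ≃* S.G :=
  (QuotientGroup.quotientMulEquivOfEq (show squares F = φ.ker from (ker_eq hk).symm)).trans
    (QuotientGroup.quotientKerEquivOfSurjective φ hs)

lemma eqv_mk (a : Fˣ) : eqv hs hk (a : Cl F) = φ a := rfl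

include hn in
lemma eqv_mone : eqv hs hk (mone F) = S.neg := by
  rw [mone, eqv_mk, hn]

include h0 hq in
lemma adj_iff (h2 : (2 : F) ≠ 0) (x y : Cl F) :
    Adj x y ↔ Ad S (eqv hs hk x) (eqv hs hk y) := by
  have ne : ∀ x : Cl F, x ≠ 1 ↔ eqv hs hk x ≠ 1 := fun x =>
    not_congr (MulEquiv.map_eq_one_iff (eqv hs hk)).symm
  constructor
  · rintro ⟨h1, h3, a, b, rfl, rfl, h4⟩
    exact ⟨(ne _).1 h1, (ne _).1 h3, (q_zero h0 hq h2 a b).2 h4⟩
  · rintro ⟨h1, h3, h4⟩
    obtain ⟨a, rfl⟩ := QuotientGroup.mk_surjective x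
    obtain ⟨b, rfl⟩ := QuotientGroup.mk_surjective y
    exact ⟨(ne _).2 h1, (ne _).2 h3, a, b, rfl, rfl, (q_zero h0 hq h2 a b).1 h4⟩

include h0 hq in
lemma dist_iff (h2 : (2 : F) ≠ 0) (n : ℕ) (x y : Cl F) :
    Dist n x y ↔ Within (Ad S) n (eqv hs hk x) (eqv hs hk y) :=
  within_equiv (eqv hs hk).toEquiv (adj_iff hs hk h0 hq h2) n x y

include h0 hq in
lemma conn_iff (h2 : (2 : F) ≠ 0) (x y : Cl F) :
    Conn x y ↔ Co S (eqv hs hk x) (eqv hs hk y) := by
  unfold Conn Co
  rw [rtg_iff]
  exact exists_congr fun n => dist_iff hs hk h0 hq h2 n x y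

include hn h0 hq in
lemma isolated_iff (h2 : (2 : F) ≠ 0) (h : IsQuat S) (x : Cl F) :
    Isolated x ↔ Bi S (eqv hs hk x) := by
  have e1 : x ≠ 1 ↔ eqv hs hk x ≠ 1 := not_congr (MulEquiv.map_eq_one_iff (eqv hs hk)).symm
  have e2 : x ≠ mone F ↔ eqv hs hk x ≠ S.neg := by
    rw [← eqv_mone hs hk hn]
    exact not_congr (eqv hs hk).injective.eq_iff.symm
  -- neighbours and value groups
  have e3 : ∀ z w : Cl F, z ≠ 1 → ((∀ y, Adj z y → y = w) ↔
      ∀ e : S.G, S.q (eqv hs hk z) e = S.zero → e = 1 ∨ e = eqv hs hk w) := by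
    intro z w hz
    constructor
    · intro h1 e he
      by_cases he1 : e = 1
      · exact Or.inl he1
      · obtain ⟨y, rfl⟩ := (eqv hs hk).surjective e
        right
        rw [h1 y ((adj_iff hs hk h0 hq h2 z y).2
          ⟨fun e => hz ((MulEquiv.map_eq_one_iff _).1 e), he1, he⟩)]
    · intro h1 y hy
      have hy' := (adj_iff hs hk h0 hq h2 z y).1 hy
      rcases h1 _ hy'.2.2 with h3 | h3
      · exact absurd h3 hy'.2.1
      · exact (eqv hs hk).injective h3
  have e4 : eqv hs hk (mone F * x) = S.neg * eqv hs hk x := by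
    rw [map_mul, eqv_mone hs hk hn]
  have e5 : S.neg * (S.neg * eqv hs hk x) = eqv hs hk x := by
    rw [← mul_assoc, h.exp2, one_mul]
  unfold Isolated Bi Hr
  constructor
  · rintro ⟨h1, h3, h4, h5⟩
    have h6 : mone F * x ≠ 1 := by
      intro e
      apply h3
      have h7 : eqv hs hk (mone F * x) = 1 := by rw [e, map_one]
      rw [e4] at h7
      by_contra hc
      exact neg_mul_ne h (e2.1 hc) h7
    refine ⟨e1.1 h1, e2.1 h3, ?_, ?_⟩
    · have := (e3 x (mone F * x) h1).1 h4
      rwa [e4] at this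
    · have := (e3 (mone F * x) x h6).1 h5
      rw [e5]
      rwa [e4] at this
  · rintro ⟨h1, h3, h4, h5⟩
    have h6 : mone F * x ≠ 1 := by
      intro e
      have h7 : eqv hs hk (mone F * x) = 1 := by rw [e, map_one]
      rw [e4] at h7
      exact neg_mul_ne h h3 h7
    refine ⟨e1.2 h1, e2.2 h3, (e3 x (mone F * x) (e1.2 h1)).2 ?_, (e3 (mone F * x) x h6).2 ?_⟩
    · rw [e4]; exact h4
    · rw [e4]
      rw [e5] at h5
      exact h5

end comp

end Pool.Agent.H86.SG
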