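import Mathlib
import Pool.Agent.H86.SG.FDefs

set_option autoImplicit false

/-! The splitting graph of a field: transfer of the theorems on structures, and valuations. -/

namespace Pool.Agent.H86.SG

open scoped Quaternion
open Pool.Agent.H315R3.ETC Pool.Agent.TH188.ET Pool.Agent.Y920.ETC

section within
variable {V : Type} {r : V → V → Prop}

lemma within_one {x y : V} : Within r 1 x y ↔ x = y ∨ r x y := by
  constructor
  · rintro (h1 | ⟨z, h1, h2⟩)
    · exact Or.inl h1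
    · have : x = z := h1
      rw [this]; exact Or.inr h2
  · rintro (h1 | h1)
    · exact Or.inl h1
    · exact Or.inr ⟨x, rfl, h1⟩

lemma within_zero {x y : V} (h : Within r 0 x y) : x = y := h

end within

section str
variable {S : QData} (h : IsQuat S)

lemma within_co {n : ℕ} {a b : S.G} (hab : Within (Ad S) n a b) : Co S a b :=
  rtg_iff.2 ⟨n, hab⟩

include h in
lemma within_pred (hn : S.neg = 1) {n : ℕ} {a b : S.G} (ha : a ≠ 1)
    (hab : Within (Ad S) (n + 1) a b) : ∃ z, Within (Ad S) n a z ∧ Ad S z b := by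
  rcases hab with h1 | h1
  · have hb := co_ne (within_co h1) ha
    exact ⟨b, h1, hb, hb, q_self h hn b⟩
  · exact h1

include h in
lemma within_two_iff (hn : S.neg = 1) {a b : S.G} (ha : a ≠ 1) :
    Within (Ad S) 2 a b ↔ ∃ x, Ad S a x ∧ Ad S x b := by
  constructor
  · intro h1
    obtain ⟨x, hx1, hx2⟩ := within_pred h hn ha h1
    obtain ⟨y, hy1, hy2⟩ := within_pred h hn ha hx1
    rw [← within_zero hy1] at hy2
    exact ⟨x, hy2, hx2⟩
  · rintro ⟨x, h1, h2⟩
    exact Or.inr ⟨x, within_one.2 (Or.inr h1), h2⟩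

include h in
lemma within_three_iff (hn : S.neg = 1) {a b : S.G} (ha : a ≠ 1) :
    Within (Ad S) 3 a b ↔ ∃ x y, Ad S a x ∧ Ad S x y ∧ Ad S y b := by
  constructor
  · intro h1
    obtain ⟨x, hx1, hx2⟩ := within_pred h hn ha h1
    obtain ⟨y, hy1, hy2⟩ := (within_two_iff h hn ha).1 hx1
    exact ⟨y, x, hy1, hy2, hx2⟩
  · rintro ⟨x, y, h1, h2, h3⟩
    exact Or.inr ⟨y, (within_two_iff h hn ha).2 ⟨x, h1, h2⟩, h3⟩

end str

section comp

variable {F : Type} [Field F] {S : QData} {φ : Fˣ →* S.G} (hs : Function.Surjective φ)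
  (hk : ∀ a : Fˣ, φ a = 1 ↔ ∃ b : Fˣ, a = b ^ 2) (hn : φ (-1) = S.neg)
  (h0 : S.q 1 1 = S.zero)
  (hq : ∀ a b c d : Fˣ, S.q (φ a) (φ b) = S.q (φ c) (φ d) ↔
      Nonempty (ℍ[F,(a : F),0,(b : F)] ≃ₐ[F] ℍ[F,(c : F),0,(d : F)]))

include hk hn in
lemma neg_iff : S.neg = 1 ↔ IsSquare (-1 : F) := by
  rw [← hn, hk]
  constructor
  · rintro ⟨b, hb⟩
    refine ⟨b, ?_⟩
    have := congrArg (fun u : Fˣ => (u : F)) hb
    simpa [pow_two] using this
  · rintro ⟨b, hb⟩
    have hb0 : b ≠ 0 := by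
      rintro rfl
      simp at hb
    refine ⟨Units.mk0 b hb0, ?_⟩
    ext
    rw [Units.val_neg, Units.val_one, Units.val_pow_eq_pow_val, Units.val_mk0, hb, pow_two]

include hs hk hn h0 hq in
lemma narrow_of_graph (h2 : (2 : F) ≠ 0) (h : IsQuat S) (hN : NarrowGraph F) : Narrow S := by
  let e := eqv hs hk
  have ne : ∀ x : Cl F, e x ≠ 1 → x ≠ 1 := fun x hx e1 => hx (by rw [e1, map_one])
  have key : ∀ (n : ℕ) (x y : Cl F), Dist n x y ↔ Within (Ad S) n (e x) (e y) :=
    dist_iff hs hk h0 hq h2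
  have keyc : ∀ x y : Cl F, Conn x y ↔ Co S (e x) (e y) := conn_iff hs hk h0 hq h2
  rcases hN with h1 | ⟨hsq, h1, h3⟩
  · left
    intro a b ha hab
    obtain ⟨x, rfl⟩ := e.surjective a
    obtain ⟨y, rfl⟩ := e.surjective b
    have h4 := (key 2 x y).1 (h1 x y (ne x ha) ((keyc x y).2 hab))
    rcases h4 with h5 | ⟨z, h5, h6⟩
    · rcases within_one.1 h5 with h7 | h7
      · left; rw [h7]; exact h.exp2 _
      · exact Or.inr (Or.inr (Or.inl h7.2.2))
    · rcases within_one.1 h5 with h7 | h7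
      · rw [← h7] at h6
        exact Or.inr (Or.inr (Or.inl h6.2.2))
      · exact Or.inr (Or.inr (Or.inr ⟨z, h7, h6⟩))
  · right
    have hneg : S.neg = 1 := (neg_iff hk hn).2 hsq
    refine ⟨hneg, ?_, ?_⟩
    · intro a b ha hab
      obtain ⟨x, rfl⟩ := e.surjective a
      obtain ⟨y, rfl⟩ := e.surjective b
      exact (within_three_iff h hneg ha).1 ((key 3 x y).1 (h1 x y (ne x ha) ((keyc x y).2 hab)))
    · intro a b c d ha hc hab hcd g1 g2
      obtain ⟨x, rfl⟩ := e.surjective a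
      obtain ⟨y, rfl⟩ := e.surjective b
      obtain ⟨z, rfl⟩ := e.surjective c
      obtain ⟨w, rfl⟩ := e.surjective d
      refine (keyc x z).1 (h3 x y z w (ne x ha) (ne z hc) ((keyc x y).2 hab) ((keyc z w).2 hcd)
        ?_ ?_)
      · intro g
        exact g1 ((within_two_iff h hneg ha).1 ((key 2 x y).1 g))
      · intro g
        exact g2 ((within_two_iff h hneg hc).1 ((key 2 z w).1 g))

include hs hk hn h0 hq in
lemma graph_of_diam (h2 : (2 : F) ≠ 0) (h : IsQuat S) (hneg : S.neg = 1) (hD : Diam S) :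
    NarrowGraph F := by
  let e := eqv hs hk
  have ne : ∀ x : Cl F, x ≠ 1 → e x ≠ 1 := fun x hx e1 => hx ((MulEquiv.map_eq_one_iff e).1 e1)
  have key : ∀ (n : ℕ) (x y : Cl F), Dist n x y ↔ Within (Ad S) n (e x) (e y) :=
    dist_iff hs hk h0 hq h2
  have keyc : ∀ x y : Cl F, Conn x y ↔ Co S (e x) (e y) := conn_iff hs hk h0 hq h2
  refine Or.inr ⟨(neg_iff hk hn).1 hneg, ?_, ?_⟩
  · intro x y hx hxy
    exact (key 3 x y).2 ((within_three_iff h hneg (ne x hx)).2 (hD.three _ _ (ne x hx)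
      ((keyc x y).1 hxy)))
  · intro x y z w hx hz hxy hzw g1 g2
    refine (keyc x z).2 (hD.two _ _ _ _ (ne x hx) (ne z hz) ((keyc x y).1 hxy)
      ((keyc z w).1 hzw) ?_ ?_)
    · intro g
      exact g1 ((key 2 x y).2 ((within_two_iff h hneg (ne x hx)).2 g))
    · intro g
      exact g2 ((key 2 z w).2 ((within_two_iff h hneg (ne z hz)).2 g))

end comp

/-- elementary type, necessity: any two vertices which are not isolated have distance at most
three -/
theorem elementary_dist {F : Type} [Field F] (h2 : (2 : F) ≠ 0) (hfin : (squares F).index ≠ 0)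
    (hsq : IsSquare (-1 : F)) (hE : ElementaryType F) :
    NarrowGraph F ∧ ∀ x y : Cl F, x ≠ 1 → y ≠ 1 → ¬ Isolated x → ¬ Isolated y → Dist 3 x y := by
  obtain ⟨S, hS, hSf, h⟩ := exists_structure h2 (finSq_of_index hfin)
  have hES : Elem S := by
    obtain ⟨T, hT, hTs⟩ := hE
    exact Elem.iso _ _ hT (iso_of_structure hTs hS)
  obtain ⟨φ, hs, hk, hn, h0, hq⟩ := hS
  have hneg : S.neg = 1 := (neg_iff hk hn).2 hsq
  refine ⟨graph_of_diam hs hk hn h0 hq h2 h hneg (diam_of_elem h hneg hES), ?_⟩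
  intro x y hx hy hxi hyi
  have key : ∀ z : Cl F, z ≠ 1 → ¬ Isolated z → eqv hs hk z ≠ 1 ∧ NonIso S (eqv hs hk z) := by
    intro z hz hzi
    have hz1 : eqv hs hk z ≠ 1 := fun e => hz ((MulEquiv.map_eq_one_iff _).1 e)
    refine ⟨hz1, ?_⟩
    by_contra hc
    apply hzi
    rw [isolated_iff hs hk hn h0 hq h2 h]
    unfold NonIso at hc
    push Not at hc
    have hr : Hr S (eqv hs hk z) := by
      intro e he
      by_cases e1 : e = 1
      · exact Or.inl e1
      · right
        rw [hneg, one_mul]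
        by_contra e2
        exact hc e e1 e2 he
    refine ⟨hz1, by rw [hneg]; exact hz1, hr, ?_⟩
    rw [hneg, one_mul]
    exact hr
  obtain ⟨hx1, hx2⟩ := key x hx hxi
  obtain ⟨hy1, hy2⟩ := key y hy hyi
  rw [dist_iff hs hk h0 hq h2]
  exact (within_three_iff h hneg hx1).2 (short_of_elem h hES hneg _ _ hx1 hy1 hx2 hy2)

/-- decomposition -/
theorem decomp {F : Type} [Field F] (h2 : (2 : F) ≠ 0) (hfin : (squares F).index ≠ 0)
    (hN : NarrowGraph F) : ∃ (B : Subgroup (Cl F)) (k : ℕ) (T : QData),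
      (∀ x, x ∈ B ↔ ¬ Isolated x) ∧
      (∀ x ∈ B, ∀ y ∈ B, x ≠ 1 → x ≠ mone F → y ≠ 1 → y ≠ mone F → Conn x y) ∧
      2 ^ k * Nat.card B = Nat.card (Cl F) ∧ IsQuat T ∧ Nat.card T.G = Nat.card B ∧
      IsStructureOf F (ext^[k] T) := by
  obtain ⟨S, hS, hSf, h⟩ := exists_structure h2 (finSq_of_index hfin)
  have hS' := hS
  obtain ⟨φ, hs, hk, hn, h0, hq⟩ := hS
  obtain ⟨B, hneg, k, h1, h3, h4, h5, h6⟩ := main3 h (narrow_of_graph hs hk hn h0 hq h2 h hN)
  have hcl : Nat.card (Cl F) = Nat.card S.G := Nat.card_congr (eqv hs hk).toEquiv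
  have hcb : Nat.card (B.comap (eqv hs hk).toMonoidHom) = Nat.card B := by
    refine Nat.card_congr ?_
    refine Equiv.subtypeEquiv (eqv hs hk).toEquiv ?_
    intro x
    exact Iff.rfl
  refine ⟨B.comap (eqv hs hk).toMonoidHom, k, restrN S B hneg, ?_, ?_, ?_, h5, hcb.symm, ?_⟩
  · intro x
    rw [isolated_iff hs hk hn h0 hq h2 h]
    exact h1 _
  · intro x hx y hy hx1 hx2 hy1 hy2
    rw [conn_iff hs hk h0 hq h2]
    have nn : ∀ z : Cl F, z ≠ mone F → eqv hs hk z ≠ S.neg := by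
      intro z hz e
      apply hz
      apply (eqv hs hk).injective
      rw [e, eqv_mone hs hk hn]
    exact h3 _ hx _ hy (fun e => hx1 ((MulEquiv.map_eq_one_iff _).1 e)) (nn x hx2)
      (fun e => hy1 ((MulEquiv.map_eq_one_iff _).1 e)) (nn y hy2)
  · rw [hcb, h4, hcl]
  · refine structure_iso hS' (iso_symm h6) ?_
    have : ∀ (k : ℕ) (T : QData), T.q 1 1 = T.zero → (ext^[k] T).q 1 1 = (ext^[k] T).zero := by
      intro k T hT
      induction k with
      | zero => exact hT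
      | succ k ih =>
        rw [Function.iterate_succ_apply']
        show (((ext^[k] T).q 1 1, pw (pw (ext^[k] T).neg 1) 1 * pw 1 1 * pw 1 1) :
          (ext^[k] T).Q × (ext^[k] T).G) = ((ext^[k] T).zero, 1)
        rw [ih]
        simp [pw]
    exact this k _ (q_one' h5 1)

/-- valuations -/
theorem valuation {F : Type} [Field F] (h2 : (2 : F) ≠ 0) (hfin : (squares F).index ≠ 0)
    (B : Subgroup (Cl F)) (hB : ∀ x, x ∈ B ↔ ¬ Isolated x)
    (hlarge : 2 * Nat.card B < Nat.card (Cl F)) :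
    ∃ (O : ValuationSubring F) (j : ℕ) (T : QData), (2 : F)⁻¹ ∈ O ∧
      (∀ x : F, x ∈ O → x⁻¹ ∉ O → IsSquare (1 + x)) ∧
      (2 : IsLocalRing.ResidueField O) ≠ 0 ∧
      (squares (IsLocalRing.ResidueField O)).index ≤ 2 * Nat.card B ∧ 1 ≤ j ∧
      2 ^ j * (squares (IsLocalRing.ResidueField O)).index = (squares F).index ∧
      IsStructureOf (IsLocalRing.ResidueField O) T ∧ IsStructureOf F (ext^[j] T) := by
  obtain ⟨S, hS, hSf, hSq⟩ := exists_structure h2 (finSq_of_index hfin)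
  have hS' := hS
  obtain ⟨φ, hs, hk, hn, h0, hq⟩ := hS
  obtain ⟨C, hC⟩ := Pool.Agent.Y67.ET.t_BASIC S hSq
  have hcl : Nat.card (Cl F) = Nat.card S.G := Nat.card_congr (eqv hs hk).toEquiv
  have hBC : Nat.card B = Nat.card C := by
    refine Nat.card_congr ?_
    refine Equiv.subtypeEquiv (eqv hs hk).toEquiv ?_
    intro x
    rw [hB, isolated_iff hs hk hn h0 hq h2 hSq, hC]
    exact Iff.rfl
  have hcard : Nat.card S.G = (sqG F).index := card_eq hs hk
  obtain ⟨O, hO, hOc, hc⟩ := exists_val hs hk hn h0 hq h2 C hC (by omega)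
  obtain ⟨h2k, hstr, hbi⟩ := Pool.Agent.Y620.ET.t_RES F O hO S φ hs hk hn h0 hq
  have hneg : S.neg ∈ O.unitGroup.map φ := by
    by_contra hc'
    exact (hbi _ hc').2.1 rfl
  have hstr' := hstr hneg
  obtain ⟨k, hk1, hk2⟩ := chain _ S hSq hSf le_rfl (O.unitGroup.map φ) hneg hbi
  obtain ⟨ψ, hs', hk', hn', h0', hq'⟩ := hstr'
  have hcκ : Nat.card (O.unitGroup.map φ) = (sqG (IsLocalRing.ResidueField O)).index :=
    card_eq hs' hk'
  have hpos : 0 < Nat.card (O.unitGroup.map φ) := Nat.card_pos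
  refine ⟨O, k, restrN S (O.unitGroup.map φ) hneg, hO.1, hO.2.2, h2k, ?_, ?_, ?_, hstr hneg, ?_⟩
  · show (sqG (IsLocalRing.ResidueField O)).index ≤ 2 * Nat.card B
    omega
  · by_contra hk0
    have hk0' : k = 0 := by omega
    rw [hk0', pow_zero, one_mul] at hk1
    omega
  · show 2 ^ k * (sqG (IsLocalRing.ResidueField O)).index = (sqG F).index
    rw [← hcκ, hk1, hcard]
  · refine structure_iso hS' (iso_symm hk2) ?_
    have h1q : (restrN S (O.unitGroup.map φ) hneg).q 1 1 =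
        (restrN S (O.unitGroup.map φ) hneg).zero := h0
    have : ∀ (k : ℕ) (T : QData), T.q 1 1 = T.zero → (ext^[k] T).q 1 1 = (ext^[k] T).zero := by
      intro k T hT
      induction k with
      | zero => exact hT
      | succ k ih =>
        rw [Function.iterate_succ_apply']
        show (((ext^[k] T).q 1 1, pw (pw (ext^[k] T).neg 1) 1 * pw 1 1 * pw 1 1) :
          (ext^[k] T).Q × (ext^[k] T).G) = ((ext^[k] T).zero, 1)
        rw [ih]
        simp [pw]
    exact this k _ h1q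

end Pool.Agent.H86.SG
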