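import Mathlib
import Pool.Agent.H86.SG.Fld
import Pool.Graph.R_pool_sql_team_seeded_64922ed1.Results.MP_d26ff6_al.Retracts
import Pool.Graph.R_pool_sql_team_seeded_b0a926ef.R675.PQ.Ext
import Pool.Graph.R_seed8.Results.MP_d26ff6_al.SmallTriples

set_option autoImplicit false

/-! The splitting graph of a field: special cases and the reduction of the conjecture. -/

namespace Pool.Agent.H86.SG

open scoped Quaternion
open Pool.Agent.H315R3.ETC Pool.Agent.TH188.ET Pool.Agent.Y920.ETC

/-- subgroups of a group of exponent two are retracts -/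
lemma exists_retraction {G : Type} [CommGroup G] (h2 : ∀ a : G, a * a = 1) (B : Subgroup G) :
    ∃ N : G →* B, ∀ b : B, N b = b := by
  let _ : Module (ZMod 2) (Additive G) := AddCommGroup.zmodModule (n := 2) fun x => by
    rw [two_nsmul]; exact h2 x
  let _ : Module (ZMod 2) (Additive B) := AddCommGroup.zmodModule (n := 2) fun x => by
    rw [two_nsmul]; exact Subtype.ext (h2 _)
  let f : Additive B →+ Additive G := MonoidHom.toAdditive B.subtype
  let f' : Additive B →ₗ[ZMod 2] Additive G := AddMonoidHom.toZModLinearMap 2 f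
  have hf : LinearMap.ker f' = ⊥ := by
    rw [LinearMap.ker_eq_bot]
    intro x y hxy
    exact Subtype.ext hxy
  obtain ⟨g, hg⟩ := LinearMap.exists_leftInverse_of_injective f' hf
  refine ⟨MonoidHom.toAdditive.symm g.toAddMonoidHom, ?_⟩
  intro b
  exact congrArg (fun l => l (Additive.ofMul b)) hg

/-- if a structure is of elementary type then so is its restriction to the subgroup of the elements
which are not birigid -/
theorem elem_restr {S : QData} (h : IsQuat S) (B : Subgroup S.G) (hneg : S.neg ∈ B)
    (hT : IsQuat (restrN S B hneg))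
    (hin : ∀ a b : S.G, a ∈ B → a ≠ 1 → S.q a b = S.zero → b ∈ B) (hE : Elem S) :
    Elem (restrN S B hneg) := by
  obtain ⟨N, hN⟩ := exists_retraction h.exp2 B
  refine ((Pool.Agent.Results.MP_d26ff6_al.Retracts.result.1 (restrN S B hneg) 1 (fun _ => S) hT
    (fun _ => ⟨h, hE⟩) ?_)).2
  refine ⟨fun _ => B.subtype, fun _ => N, ?_, ?_, ?_⟩
  · intro a
    rw [Fin.prod_univ_one]
    exact hN a
  · intro _ a b hab
    exact hab
  · intro _ (a : B) (y : S.G) hay
    show S.q (a : S.G) ((N y : B) : S.G) = S.zero
    have hay' : S.q (a : S.G) y = S.zero := hay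
    by_cases ha : (a : S.G) = 1
    · rw [ha, h.qs2]
      exact q_one' h _
    · have hy := hin a.1 y a.2 ha hay'
      have e1 : N y = ⟨y, hy⟩ := hN ⟨y, hy⟩
      rw [e1]
      exact hay'

/-- decomposition, with the comparison of elementary type -/
theorem decomp' {F : Type} [Field F] (h2 : (2 : F) ≠ 0) (hfin : (squares F).index ≠ 0)
    (hN : NarrowGraph F) : ∃ (B : Subgroup (Cl F)) (k : ℕ) (T : QData),
      (∀ x, x ∈ B ↔ ¬ Isolated x) ∧
      (∀ x ∈ B, ∀ y ∈ B, x ≠ 1 → x ≠ mone F → y ≠ 1 → y ≠ mone F → Conn x y) ∧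
      2 ^ k * Nat.card B = Nat.card (Cl F) ∧ IsQuat T ∧ Nat.card T.G = Nat.card B ∧
      IsStructureOf F (ext^[k] T) ∧ (ElementaryType F ↔ Elem T) ∧
      ((∀ x y : Cl F, x ≠ 1 → Conn x y → Dist 1 x y) → 16 < Nat.card B →
        ∀ u v : T.G, T.q u v = T.zero) := by
  obtain ⟨S, hS, hSf, h⟩ := exists_structure h2 (finSq_of_index hfin)
  have hS' := hS
  obtain ⟨φ, hs, hk, hn, h0, hq⟩ := hS
  obtain ⟨B, hneg, k, h1, h3, h4, h5, h6⟩ := main3 h (narrow_of_graph hs hk hn h0 hq h2 h hN)
  have hcl : Nat.card (Cl F) = Nat.card S.G := Nat.card_congr (eqv hs hk).toEquiv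
  have hcb : Nat.card (B.comap (eqv hs hk).toMonoidHom) = Nat.card B := by
    refine Nat.card_congr ?_
    refine Equiv.subtypeEquiv (eqv hs hk).toEquiv ?_
    intro x
    exact Iff.rfl
  have hst : IsStructureOf F (ext^[k] (restrN S B hneg)) := by
    refine structure_iso hS' (iso_symm h6) ?_
    have : ∀ (k : ℕ) (T : QData), T.q 1 1 = T.zero → (ext^[k] T).q 1 1 = (ext^[k] T).zero := by
      intro k T hT
      induction k with
      | zero => exact hT
      | succ k ih =>
        rw [Function.iterate_succ_apply']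
        show (((ext^[k] T).q 1 1, pw (pw (ext^[k] T).neg 1) 1 * pw 1 1 * pw 1 1) :
          (ext^[k] T).Q × (ext^[k] T).G) = ((ext^[k] T).zero, 1)
        rw [ih]
        simp [pw]
    exact this k _ (q_one' h5 1)
  refine ⟨B.comap (eqv hs hk).toMonoidHom, k, restrN S B hneg, ?_, ?_, ?_, h5, hcb.symm, hst,
    ?_, ?_⟩
  · intro x
    rw [isolated_iff hs hk hn h0 hq h2 h]
    exact h1 _
  · intro x hx y hy hx1 hx2 hy1 hy2
    rw [conn_iff hs hk h0 hq h2]
    have nn : ∀ z : Cl F, z ≠ mone F → eqv hs hk z ≠ S.neg := by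
      intro z hz e
      apply hz
      apply (eqv hs hk).injective
      rw [e, eqv_mone hs hk hn]
    exact h3 _ hx _ hy (fun e => hx1 ((MulEquiv.map_eq_one_iff _).1 e)) (nn x hx2)
      (fun e => hy1 ((MulEquiv.map_eq_one_iff _).1 e)) (nn y hy2)
  · rw [hcb, h4, hcl]
  · constructor
    · rintro ⟨T, hT, hTs⟩
      refine elem_restr h B hneg h5 ?_ (Elem.iso _ _ hT (iso_of_structure hTs hS'))
      exact (isQuat_restrN h B hneg (fun x hx => by
        by_contra hc
        exact hx ((h1 x).2 hc))).2
    · intro hT
      exact ⟨_, elem_iter hT k, hst⟩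
  · intro hD hB16
    rw [hcb] at hB16
    have hBf : Finite B := inferInstance
    -- all pairs outside `{1, -1}` are equal or split
    have p1 : ∀ a b : S.G, a ∈ B → b ∈ B → a ≠ 1 → a ≠ S.neg → b ≠ 1 → b ≠ S.neg → a ≠ b →
        S.q a b = S.zero := by
      intro a b ha hb ha1 ha2 hb1 hb2 hab
      obtain ⟨x, rfl⟩ := (eqv hs hk).surjective a
      obtain ⟨y, rfl⟩ := (eqv hs hk).surjective b
      have hc : Conn x y := (conn_iff hs hk h0 hq h2 x y).2 (h3 _ ha _ hb ha1 ha2 hb1 hb2)
      have hx1 : x ≠ 1 := fun e => ha1 (by rw [e, map_one])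
      have hd := (dist_iff hs hk h0 hq h2 1 x y).1 (hD x y hx1 hc)
      rcases within_one.1 hd with h7 | h7
      · exact absurd h7 hab
      · exact h7.2.2
    -- value groups are everything
    have p2 : ∀ a : S.G, a ∈ B → a ≠ 1 → a ≠ S.neg → ∀ b ∈ B, S.q a b = S.zero := by
      intro a ha ha1 ha2 b hb
      -- choose `c` outside a small set
      have hex : ∃ c : B, (c : S.G) ∉ ({1, S.neg, a, b, b * S.neg, b * a} : Set S.G) := by
        by_contra hcon
        push Not at hcon
        have hsub : (B : Set S.G) ⊆ ({1, S.neg, a, b, b * S.neg, b * a} : Set S.G) :=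
          fun x hx => hcon ⟨x, hx⟩
        have hle := Set.ncard_le_ncard hsub (Set.toFinite _)
        have h7 : ({1, S.neg, a, b, b * S.neg, b * a} : Set S.G).ncard ≤ 6 := by
          refine (Set.ncard_insert_le _ _).trans ?_
          refine (Nat.add_le_add_right (Set.ncard_insert_le _ _) 1).trans ?_
          refine (Nat.add_le_add_right (Nat.add_le_add_right (Set.ncard_insert_le _ _) 1) 1).trans ?_
          refine (Nat.add_le_add_right (Nat.add_le_add_right (Nat.add_le_add_right
            (Set.ncard_insert_le _ _) 1) 1) 1).trans ?_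
          refine (Nat.add_le_add_right (Nat.add_le_add_right (Nat.add_le_add_right
            (Nat.add_le_add_right (Set.ncard_insert_le _ _) 1) 1) 1) 1).trans ?_
          rw [Set.ncard_singleton]
        have h8 : (B : Set S.G).ncard = Nat.card B := rfl
        omega
      obtain ⟨⟨c, hc⟩, hcn⟩ := hex
      simp only [Set.mem_insert_iff, Set.mem_singleton_iff, not_or] at hcn
      obtain ⟨c1, c2, c3, c4, c5, c6⟩ := hcn
      have q1 : S.q a c = S.zero := p1 a c ha hc ha1 ha2 c1 c2 (fun e => c3 e.symm)
      have hbc1 : b * c ≠ 1 := mul_ne h (fun e => c4 e.symm)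
      have hbc2 : b * c ≠ S.neg := by
        intro e
        apply c5
        rw [← e, ← mul_assoc, h.exp2, one_mul]
      have hbc3 : a ≠ b * c := by
        intro e
        apply c6
        rw [e, ← mul_assoc, h.exp2, one_mul]
      have q2 : S.q a (b * c) = S.zero := p1 a (b * c) ha (B.mul_mem hb hc) ha1 ha2 hbc1 hbc2 hbc3
      have q3 := q_mul h q2 q1
      rwa [mul_assoc, h.exp2, mul_one] at q3
    intro (u : B) (v : B)
    show S.q u.1 v.1 = S.zero
    by_cases hu1 : (u : S.G) = 1
    · rw [hu1, h.qs2]; exact q_one' h _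
    by_cases hu2 : (u : S.G) = S.neg
    · by_cases hv1 : (v : S.G) = 1
      · rw [hv1]; exact q_one' h _
      by_cases hv2 : (v : S.G) = S.neg
      · -- `q(-1,-1) = q(-1, c) + q(-1, -c)`
        have hex : ∃ c : B, (c : S.G) ∉ ({1, S.neg} : Set S.G) := by
          by_contra hcon
          push Not at hcon
          have hsub : (B : Set S.G) ⊆ ({1, S.neg} : Set S.G) := fun x hx => hcon ⟨x, hx⟩
          have hle := Set.ncard_le_ncard hsub (Set.toFinite _)
          have h7 : ({1, S.neg} : Set S.G).ncard ≤ 2 := by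
            refine (Set.ncard_insert_le _ _).trans ?_
            rw [Set.ncard_singleton]
          have h8 : (B : Set S.G).ncard = Nat.card B := rfl
          omega
        obtain ⟨⟨c, hc⟩, hcn⟩ := hex
        simp only [Set.mem_insert_iff, Set.mem_singleton_iff, not_or] at hcn
        obtain ⟨c1, c2⟩ := hcn
        have q1 : S.q S.neg c = S.zero := by
          rw [h.qs2]; exact p2 c hc c1 c2 _ hneg
        have n1 : S.neg * c ≠ 1 := neg_mul_ne h c2
        have n2 : S.neg * c ≠ S.neg := fun e => c1 (mul_left_cancel (e.trans (mul_one _).symm))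
        have q2 : S.q S.neg (S.neg * c) = S.zero := by
          rw [h.qs2]; exact p2 _ (B.mul_mem hneg hc) n1 n2 _ hneg
        have q3 := q_mul h q2 q1
        rw [mul_assoc, h.exp2, mul_one] at q3
        rw [hu2, hv2]; exact q3
      · rw [h.qs2]; exact p2 v.1 v.2 hv1 hv2 _ u.2
    · exact p2 u.1 u.2 hu1 hu2 _ v.2

/-- small components -/
theorem small_components {F : Type} [Field F] (h2 : (2 : F) ≠ 0) (hfin : (squares F).index ≠ 0)
    (hN : NarrowGraph F)
    (hc : ∀ x : Cl F, (insert 1 (insert (mone F) {y | Conn x y}) : Set (Cl F)).ncard ≤ 16) :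
    ElementaryType F := by
  obtain ⟨B, k, T, h1, h3, h4, h5, h6, h7, h8, -⟩ := decomp' h2 hfin hN
  rw [h8]
  have hcl : 0 < Nat.card (Cl F) := Nat.pos_of_ne_zero hfin
  have hclf : Finite (Cl F) := Nat.finite_of_card_ne_zero hcl.ne'
  have hB : Nat.card B ≤ 16 := by
    by_cases hx : ∃ x ∈ B, x ≠ 1 ∧ x ≠ mone F
    · obtain ⟨x, hxB, hx1, hx2⟩ := hx
      have hsub : (B : Set (Cl F)) ⊆ insert 1 (insert (mone F) {y | Conn x y}) := by
        intro y hy
        by_cases hy1 : y = 1
        · exact Or.inl hy1
        by_cases hy2 : y = mone F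
        · exact Or.inr (Or.inl hy2)
        · exact Or.inr (Or.inr (h3 x hxB y hy hx1 hx2 hy1 hy2))
      have h9 := Set.ncard_le_ncard hsub (Set.toFinite _)
      have h12 := hc x
      have h13 : (B : Set (Cl F)).ncard = Nat.card B := rfl
      omega
    · push Not at hx
      have hsub : (B : Set (Cl F)) ⊆ ({1, mone F} : Set (Cl F)) := by
        intro y hy
        by_cases hy1 : y = 1
        · exact Or.inl hy1
        · exact Or.inr (hx y hy hy1)
      have h9 := Set.ncard_le_ncard hsub (Set.toFinite _)
      have h10 := Set.ncard_insert_le (1 : Cl F) {mone F}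
      rw [Set.ncard_singleton] at h10
      have h13 : (B : Set (Cl F)).ncard = Nat.card B := rfl
      omega
  have hTf : Finite T.G := Nat.finite_of_card_ne_zero (by
    rw [h6]
    exact Nat.card_pos.ne')
  exact Pool.Agent.R675.ETC4.elem_sixteen T h5 (by omega)

/-- complete components -/
theorem complete_components {F : Type} [Field F] (h2 : (2 : F) ≠ 0)
    (hfin : (squares F).index ≠ 0) (hD : ∀ x y : Cl F, x ≠ 1 → Conn x y → Dist 1 x y) :
    ElementaryType F := by
  have hN : NarrowGraph F := Or.inl fun x y hx hxy => Or.inl (hD x y hx hxy)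
  obtain ⟨B, k, T, h1, h3, h4, h5, h6, h7, h8, h9⟩ := decomp' h2 hfin hN
  rw [h8]
  have hcl : 0 < Nat.card (Cl F) := Nat.pos_of_ne_zero hfin
  have hclf : Finite (Cl F) := Nat.finite_of_card_ne_zero hcl.ne'
  have hTf : Finite T.G := Nat.finite_of_card_ne_zero (by
    rw [h6]
    exact Nat.card_pos.ne')
  by_cases hB : Nat.card B ≤ 16
  · exact Pool.Agent.R675.ETC4.elem_sixteen T h5 (by omega)
  · have hz := h9 hD (by omega)
    refine (Pool.Agent.Results.MP_d26ff6_al.SmallTriples.result T h5 hTf (B := PUnit.{1})
      (fun _ => rfl) (fun _ _ => (PUnit.unit : PUnit.{1})) (fun _ _ _ => rfl) ?_).1 inferInstance ?_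
    · intro a b c d
      exact ⟨fun _ => (hz a b).trans (hz c d).symm, fun _ => rfl⟩
    · rw [Nat.card_unique]
      norm_num

/-- **Reduction.** The conjecture for fields which contain a square root of `-1`. -/
theorem reduction :
    (∀ (F : Type) [Field F], (2 : F) ≠ 0 → (squares F).index ≠ 0 → IsSquare (-1 : F) →
      ElementaryType F) ↔
    ((∀ (F : Type) [Field F], (2 : F) ≠ 0 → (squares F).index ≠ 0 → IsSquare (-1 : F) →
      NarrowGraph F) ∧
    ∀ (F : Type) [Field F], (2 : F) ≠ 0 → (squares F).index ≠ 0 → IsSquare (-1 : F) →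
      (∀ x y : Cl F, x ≠ 1 → y ≠ 1 → ¬ Isolated x → ¬ Isolated y → Dist 3 x y) →
      Nat.card (Cl F) ≤ 2 * Nat.card {x : Cl F // ¬ Isolated x} → ElementaryType F) := by
  constructor
  · intro h
    exact ⟨fun F _ h2 hfin hsq => (elementary_dist h2 hfin hsq (h F h2 hfin hsq)).1,
      fun F _ h2 hfin hsq _ _ => h F h2 hfin hsq⟩
  · rintro ⟨hG, hC⟩
    have main : ∀ (n : ℕ) (F : Type) [Field F], (2 : F) ≠ 0 → (squares F).index ≠ 0 →
        IsSquare (-1 : F) → (squares F).index = n → ElementaryType F := by
      intro n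
      induction n using Nat.strong_induction_on with
      | _ n ih =>
        intro F _ h2 hfin hsq hidx
        have hN := hG F h2 hfin hsq
        obtain ⟨B, k, T, h1, h3, h4, h5, h6, h7, h8, -⟩ := decomp' h2 hfin hN
        have hm : mone F = 1 := by
          obtain ⟨b, hb⟩ := hsq
          have hb0 : b ≠ 0 := by
            rintro rfl
            simp at hb
          rw [mone, QuotientGroup.eq_one_iff]
          refine ⟨Units.mk0 b hb0, ?_⟩
          ext
          show ((Units.mk0 b hb0 : Fˣ) ^ 2 : Fˣ).val = _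
          rw [Units.val_pow_eq_pow_val, Units.val_mk0, Units.val_neg, Units.val_one, hb, pow_two]
        have hBc : Nat.card {x : Cl F // ¬ Isolated x} = Nat.card B :=
          Nat.card_congr (Equiv.subtypeEquivRight fun x => (h1 x).symm)
        by_cases hl : Nat.card (Cl F) ≤ 2 * Nat.card B
        · refine hC F h2 hfin hsq ?_ (by rw [hBc]; exact hl)
          intro x y hx hy hxi hyi
          have hc := h3 x ((h1 x).2 hxi) y ((h1 y).2 hyi) hx (by rw [hm]; exact hx) hy
            (by rw [hm]; exact hy)
          rcases hN with hN | ⟨-, hN, -⟩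
          · exact Or.inl (hN x y hx hc)
          · exact hN x y hx hc
        · push Not at hl
          obtain ⟨O, j, R, g1, g2, g3, g4, g5, g6, g7, g8⟩ := valuation h2 hfin B h1 hl
          have hidxk : (squares (IsLocalRing.ResidueField O)).index < n := by
            rw [← hidx, ← g6]
            have hp : 0 < (squares (IsLocalRing.ResidueField O)).index := by
              rcases Nat.eq_zero_or_pos (squares (IsLocalRing.ResidueField O)).index with e | e
              · exfalso
                rw [e, mul_zero] at g6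
                exact hfin g6.symm
              · exact e
            have h2j : 2 ≤ 2 ^ j := by
              calc 2 = 2 ^ 1 := (pow_one 2).symm
                _ ≤ 2 ^ j := Nat.pow_le_pow_right (by norm_num) g5
            nlinarith
          have hfink : (squares (IsLocalRing.ResidueField O)).index ≠ 0 := by
            intro e
            rw [e, mul_zero] at g6
            exact hfin g6.symm
          have hsqk : IsSquare (-1 : IsLocalRing.ResidueField O) := by
            obtain ⟨b, hb⟩ := hsq
            have hbO : b ∈ O := by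
              rcases O.mem_or_inv_mem b with h9 | h9
              · exact h9
              · have hbb : b * b = -1 := hb.symm
                have hb0 : b ≠ 0 := by
                  rintro rfl
                  simp at hbb
                have : b = - b⁻¹ := by
                  field_simp
                  linear_combination hbb
                rw [this]
                exact O.neg_mem _ h9
            refine ⟨IsLocalRing.residue O ⟨b, hbO⟩, ?_⟩
            rw [← map_mul]
            have : (⟨b, hbO⟩ : O) * ⟨b, hbO⟩ = -1 := Subtype.ext hb.symm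
            rw [this, map_neg, map_one]
          obtain ⟨R', hR', hRs⟩ := ih _ hidxk (IsLocalRing.ResidueField O) g3 hfink hsqk rfl
          have hR : Elem R := Elem.iso _ _ hR' (iso_of_structure hRs g7)
          exact ⟨_, elem_iter hR j, g8⟩
    intro F _ h2 hfin hsq
    exact main _ F h2 hfin hsq rfl

end Pool.Agent.H86.SG
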