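import Mathlib
import Pool.Agent.H86.SG.Cnt

set_option autoImplicit false

/-! Subgroups closed under value groups: all elements outside are rigid (arbitrary `-1`). -/

namespace Pool.Agent.H86.SG

open Pool.Agent.H315R3.ETC Pool.Agent.Y920.ETC

section

variable {S : QData} (h : IsQuat S) {K : Subgroup S.G} (hneg : S.neg ∈ K) (hK : ClosedV S K)

include h hneg hK in
/-- labels of triangles -/
lemma label {w y v a g : S.G} (hw : w ∉ K) (ha : a ∈ K) (ha1 : a ≠ 1) (hg : g ∈ K)
    (hy : S.q w y = S.zero) (hy1 : y ≠ 1) (hy2 : y ≠ S.neg * w) (hv : S.q (a * w) v = S.zero)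
    (hv1 : v ≠ 1) (hv2 : S.q (g * y) v = S.zero) : g = S.neg * a := by
  have hsym : ∀ a b : S.G, S.q a b = S.q b a := h.qs2
  have hyK : y ∉ K := fun hc => hy1 (one_of_both h hK hw hc hy)
  have e1 : S.q (a * w) y = S.q a y := by
    rw [h.qs2, q_mul_right h ((h.qs2 _ _).trans hy)]
    exact h.qs2 _ _
  have e2 : S.q (a * w) (y * v) = S.q a y := (q_mul_right h hv).trans e1
  obtain ⟨x, h3, h4⟩ := linkt h (rfl : S.q a y = S.q a y) ((hsym (y * v) (a * w)).trans e2)
  have e3 : S.q x (a * (y * v)) = S.zero :=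
    mul_of_eq h (((hsym x a).trans h3).trans ((hsym (y * v) x).symm.trans h4).symm)
  have hm : x * y ∈ K := hK a ha ha1 _ (mul_of_eq h h3)
  obtain ⟨m, hmx⟩ : ∃ m, m = x * y := ⟨_, rfl⟩
  rw [← hmx] at hm
  have hx : x = m * y := by rw [hmx, mul_assoc, h.exp2, mul_one]
  rw [hx] at e3
  have e4 : S.q (m * y) (S.neg * (m * y) * (a * (y * v))) = S.zero := q_mul h (h.qs1 _) e3
  have e5 : S.neg * (m * y) * (a * (y * v)) = S.neg * m * a * v := by
    have : S.neg * (m * y) * (a * (y * v)) = y * y * (S.neg * m * a * v) := by ac_rfl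
    rw [this, h.exp2, one_mul]
  rw [e5] at e4
  have hgy : g * y ∉ K := by
    intro hc
    apply hyK
    have := K.mul_mem hg hc
    rwa [← mul_assoc, h.exp2, one_mul] at this
  have e6 : m * g * (g * y) = m * y := by
    rw [mul_assoc, ← mul_assoc g g, h.exp2, one_mul]
  have hmg : m * g = 1 := by
    by_contra hne
    rcases lifts h hneg hK hgy (K.mul_mem hm hg) hne (K.mul_mem (K.mul_mem hneg hm) ha) hv2
      (by rw [e6]; exact e4) with h5 | h5
    · exact hv1 h5
    · rw [h5, ← mul_assoc] at hv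
      rcases lifts h hneg hK hw ha ha1 (K.mul_mem hneg hg) hy hv with h6 | h6
      · exact hy1 h6
      · exact hy2 h6
  have hmg' : m = g := eq_of_mul' h hmg
  rw [hmg'] at e4
  have e7 : S.q (g * y) (S.neg * g * a * v * v) = S.zero := q_mul h e4 hv2
  rw [mul_assoc _ v v, h.exp2, mul_one] at e7
  have e8 := one_of_both h hK hgy (K.mul_mem (K.mul_mem hneg hg) ha) e7
  have e9 : g * (S.neg * a) = 1 := by
    rw [← e8]
    ac_rfl
  exact eq_of_mul' h e9

/-- the value group as a subgroup -/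
def VG (x : S.G) : Subgroup S.G where
  carrier := {z | S.q x z = S.zero}
  one_mem' := q_one' h x
  mul_mem' := fun ha hb => q_mul h ha hb
  inv_mem' := by
    intro z hz
    have : z⁻¹ = z := inv_eq_of_mul_eq_one_left (h.exp2 z)
    rw [this]
    exact hz

include h in
lemma two_dvd [Finite S.G] (D : Subgroup S.G) {v : S.G} (hv : v ∈ D) (hv1 : v ≠ 1) :
    2 ∣ Nat.card D := by
  have h1 : orderOf v = 2 := orderOf_eq_prime (by rw [pow_two]; exact h.exp2 v) hv1
  rw [← h1]
  exact Subgroup.orderOf_dvd_natCard D hv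

include h in
lemma two_dvd_vs [Finite S.G] {x : S.G} (hx : x ≠ S.neg) : 2 ∣ vs S x := by
  have h1 : 2 ∣ Nat.card (VG h x) := two_dvd h (VG h x) (h.qs1 x) (neg_mul_ne h hx)
  exact h1

include h hneg hK in
/-- the value groups in the coset of an element which is not rigid -/
theorem vs_eq_mul [Finite S.G] {a w : S.G} (ha : a ∈ K) (ha1 : a ≠ 1) (ha2 : a ≠ S.neg)
    (hw : w ∉ K) (hr : ¬ Hr S w) : vs S (a * w) = vs S a := by
  have hsym : ∀ a b : S.G, S.q a b = S.q b a := h.qs2
  unfold Hr at hr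
  push Not at hr
  obtain ⟨y, hy, hy1, hy2⟩ := hr
  have hyK : y ∉ K := fun hc => hy1 (one_of_both h hK hw hc hy)
  have hw' : S.q (a * w) y = S.q a y := by
    rw [h.qs2, q_mul_right h ((h.qs2 _ _).trans hy)]
    exact h.qs2 _ _
  have haw : S.q a (a * w) ≠ S.q a y := by
    intro e
    have h5 : S.q a (a * w * y) = S.zero := mul_of_eq h e
    have h6 : S.q a (S.neg * a * (a * w * y)) = S.zero := q_mul h (h.qs1 a) h5
    have h7 : S.neg * a * (a * w * y) = S.neg * (w * y) := by
      have : S.neg * a * (a * w * y) = S.neg * (a * a) * (w * y) := by simp only [mul_assoc]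
      rw [this, h.exp2, mul_one]
    rw [h7] at h6
    have h8 := hK a ha ha1 _ h6
    have h9 : S.q w (S.neg * (w * y)) = S.zero := by
      rw [← mul_assoc]
      exact q_mul h (h.qs1 w) hy
    have h10 := one_of_both h hK hw h8 h9
    apply hy2
    have h11 : y * (S.neg * w) = 1 := by
      rw [mul_comm, mul_assoc]
      exact h10
    exact eq_of_mul' h h11
  obtain ⟨t, ht⟩ : ∃ t, t = S.q a y := ⟨_, rfl⟩
  have hf : Fr S t a := by rw [ht]; exact free_slot h hK ha ha1 hyK
  rw [← ht] at hw' haw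
  have hay : S.q a y = t := ht.symm
  obtain ⟨f, hs, key⟩ := exists_map h hf hay hw' haw
  have hfc : ∀ c : {c // S.q (a * w) c = t}, S.q c.1 (f c).1 = t := by
    intro c
    obtain ⟨z, h1, h2⟩ := linkt h hay ((hsym c.1 (a * w)).trans c.2)
    rw [key c z h2 h1]
    exact h2
  have hays : S.q a (y * (S.neg * a)) = t := (q_mul_right h (h.qs1 a)).trans hay
  obtain ⟨ys, hys⟩ : ∃ ys : {z // S.q a z = t}, ys = ⟨y * (S.neg * a), hays⟩ := ⟨_, rfl⟩
  have hinj : ∀ c c' : {c // S.q (a * w) c = t}, f c = f c' → f c ≠ ys → c = c' := by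
    intro c c' hcc hne
    by_contra hcne
    have hcc1 : c.1 * c'.1 ≠ 1 := fun e => hcne (Subtype.ext (eq_of_mul' h e))
    have h1 : S.q (a * w) (c.1 * c'.1) = S.zero := mul_of_eq h (c.2.trans c'.2.symm)
    have h2 : S.q (f c).1 (c.1 * c'.1) = S.zero := by
      refine mul_of_eq h ?_
      rw [hsym _ c.1, hfc c, hsym _ c'.1, hcc, hfc c']
    have h3 : (f c).1 * y ∈ K := hK a ha ha1 _ (mul_of_eq h ((f c).2.trans hay.symm))
    have h4 : (f c).1 = (f c).1 * y * y := by rw [mul_assoc, h.exp2, mul_one]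
    rw [h4] at h2
    have h5 := label h hneg hK hw ha ha1 h3 hy hy1 hy2 h1 hcc1 h2
    apply hne
    rw [hys]
    apply Subtype.ext
    show (f c).1 = y * (S.neg * a)
    rw [h4, h5, mul_comm]
  -- the special fibre
  have hyy : S.q y ys.1 = t := by
    rw [hys]
    show S.q y (y * (S.neg * a)) = t
    have : y * (S.neg * a) = a * (S.neg * y) := by ac_rfl
    rw [this, q_mul_right h (h.qs1 y)]
    exact (hsym _ _).trans hay
  let D : Subgroup S.G := VG h (a * w) ⊓ VG h ys.1
  have memD : ∀ z, z ∈ D ↔ S.q (a * w) z = S.zero ∧ S.q ys.1 z = S.zero := fun z => Iff.rfl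
  have hFD : (f ⁻¹' {ys}).ncard = Nat.card D := by
    have h1 : (f ⁻¹' {ys}).ncard = Nat.card (f ⁻¹' {ys}) := rfl
    rw [h1]
    refine Nat.card_congr ⟨fun c => ⟨c.1.1 * y, ?_⟩, fun z => ⟨⟨y * z.1, ?_⟩, ?_⟩, ?_, ?_⟩
    · rw [memD]
      refine ⟨mul_of_eq h (c.1.2.trans hw'.symm), mul_of_eq h ?_⟩
      have h2 : f c.1 = ys := c.2
      have h3 := hfc c.1
      rw [h2] at h3
      rw [hsym _ y, hyy, hsym]
      exact h3
    · rw [q_mul_right h ((memD _).1 z.2).1]
      exact hw'
    · show f _ = ys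
      apply Subtype.ext
      refine key _ _ ?_ ys.2
      show S.q (y * z.1) ys.1 = t
      rw [hsym, q_mul_right h ((memD _).1 z.2).2, hsym]
      exact hyy
    · intro c
      apply Subtype.ext
      apply Subtype.ext
      show y * (c.1.1 * y) = c.1.1
      rw [mul_left_comm, h.exp2, mul_one]
    · intro z
      apply Subtype.ext
      show y * z.1 * y = z.1
      rw [mul_comm, ← mul_assoc, h.exp2, one_mul]
  have e1 := Set.ncard_add_ncard_compl (f ⁻¹' {ys})
  have e2 := Set.ncard_add_ncard_compl ({ys} : Set {z // S.q a z = t})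
  have e3 : (f ⁻¹' {ys})ᶜ.ncard = ({ys} : Set {z // S.q a z = t})ᶜ.ncard := by
    have h1 : f '' (f ⁻¹' {ys})ᶜ = ({ys} : Set {z // S.q a z = t})ᶜ := by
      rw [← Set.preimage_compl]
      exact Set.image_preimage_eq _ hs
    rw [← h1]
    refine (Set.InjOn.ncard_image ?_).symm
    intro c hc c' hc' hcc
    exact hinj c c' hcc hc
  rw [Set.ncard_singleton, card_L h hay] at e2
  rw [hFD, card_L h hw', e3] at e1
  have d1 : 2 ∣ vs S a := two_dvd_vs h ha2
  have d2 : 2 ∣ vs S (a * w) := by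
    refine two_dvd_vs h ?_
    intro e
    apply hw
    have : w = a * S.neg := by rw [← e, ← mul_assoc, h.exp2, one_mul]
    rw [this]
    exact K.mul_mem ha hneg
  have hD : Nat.card D = 1 := by
    by_cases hb : ∃ v ∈ D, v ≠ 1
    · exfalso
      obtain ⟨v, hv, hv1⟩ := hb
      have d3 := two_dvd h D hv hv1
      omega
    · push Not at hb
      have : D = ⊥ := (Subgroup.eq_bot_iff_forall D).2 hb
      rw [this]
      exact Subgroup.card_bot
  omega

include h hneg hK in
/-- **Main theorem.** If no element of `K` other than `1`, `-1` is rigid, then all elements outside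
of `K` are rigid. -/
theorem rigid_of_closed [Finite S.G] (hR : ∀ b ∈ K, b ≠ 1 → b ≠ S.neg → ¬ Hr S b) {a : S.G}
    (ha : a ∈ K) (ha1 : a ≠ 1) (ha2 : a ≠ S.neg) {w : S.G} (hw : w ∉ K) : Hr S w := by
  have h4 : 4 ≤ vs S a := vs_three h ha2 (hR a ha ha1 ha2)
  refine rigid_outside h K hneg hK ha ha1 ha2 ?_ hw
  intro g hg
  by_cases hr : Hr S g
  · have := vs_rigid hr
    omega
  · have hag : a * g ∉ K := by
      intro hc
      apply hg
      have := K.mul_mem ha hc
      rwa [← mul_assoc, h.exp2, one_mul] at this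
    have h1 := vs_eq_mul h hneg hK ha ha1 ha2 hg hr
    have h2 : ¬ Hr S (a * g) := by
      intro hc
      have := vs_rigid hc
      omega
    have h3 := vs_eq_mul h hneg hK ha ha1 ha2 hag h2
    rw [← mul_assoc, h.exp2, one_mul] at h3
    exact h3.le

end

end Pool.Agent.H86.SG
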