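import Mathlib
import Pool.Agent.H86.SG.Lab
import Pool.Agent.H86.SG.CntF

set_option autoImplicit false

/-! Subgroups closed under value groups with an element which is not birigid. -/

namespace Pool.Agent.H86.SG

open scoped Quaternion
open Pool.Agent.H315R3.ETC Pool.Agent.TH188.ET Pool.Agent.Y920.ETC

section

variable {S : QData} (h : IsQuat S) {K : Subgroup S.G} (hneg : S.neg ∈ K) (hK : ClosedV S K)

include h in
lemma bi_neg {z : S.G} (hz : Bi S z) : Bi S (S.neg * z) := by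
  obtain ⟨h1, h2, h3, h4⟩ := hz
  refine ⟨neg_mul_ne h h2, fun e => h1 (mul_eq_left.1 e), h4, ?_⟩
  rw [← mul_assoc, h.exp2, one_mul]
  exact h3

include h hneg hK in
/-- If all rigid elements of `K` are birigid, and `K` has an element `a ≠ 1, -1` which is not
birigid, then all elements outside of `K` are rigid. -/
theorem rigid_of_closed' [Finite S.G] (hR : ∀ b ∈ K, b ≠ 1 → b ≠ S.neg → Hr S b → Bi S b)
    {a : S.G} (ha : a ∈ K) (ha1 : a ≠ 1) (ha2 : a ≠ S.neg) (hab : ¬ Bi S a) {w : S.G}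
    (hw : w ∉ K) : Hr S w := by
  obtain ⟨C, hC⟩ := Pool.Agent.Y67.ET.t_BASIC S h
  have hnC : S.neg ∈ C := (hC _).2 fun hb => hb.2.1 rfl
  refine rigid_of_closed (K := K ⊓ C) h ⟨hneg, hnC⟩ ?_ ?_ (a := a) ⟨ha, (hC a).2 hab⟩ ha1 ha2
    (fun hc => hw hc.1)
  · rintro u ⟨huK, huC⟩ hu1 z hz
    refine ⟨hK u huK hu1 z hz, (hC z).2 fun hb => ?_⟩
    rcases hb.2.2.1 u ((h.qs2 _ _).trans hz) with h3 | h3
    · exact hu1 h3
    · refine (hC u).1 huC ?_
      rw [h3]
      exact bi_neg h hb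
  · rintro b ⟨hbK, hbC⟩ hb1 hb2 hr
    exact (hC b).1 hbC (hR b hbK hb1 hb2 hr)

end

/-- each vertex `x ≠ -1` of `H` which is adjacent only to `-x` is isolated (this holds for all `H`
if `-1` is a square) -/
def RigidIsolated {F : Type} [Field F] (H : Subgroup (Cl F)) : Prop :=
  ∀ x ∈ H, x ≠ 1 → x ≠ mone F → (∀ y, Adj x y → y = mone F * x) → Isolated x

theorem closed_group' {F : Type} [Field F] (hF : Finitary F) (H : Subgroup (Cl F))
    (hH : NormClosed H) (hn1 : mone F ∈ H) (hR : RigidIsolated H) {a : Cl F} (ha : a ∈ H)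
    (ha1 : a ≠ 1) (ha2 : a ≠ mone F) (hai : ¬ Isolated a) : ExtensionOf H := by
  obtain ⟨h2, hfin⟩ := hF
  obtain ⟨S, hS, hSf, h⟩ := exists_structure h2 (finSq_of_index hfin)
  have hS' := hS
  obtain ⟨φ, hs, hk, hn, h0, hq⟩ := hS
  have hclf : Finite (Cl F) := Nat.finite_of_card_ne_zero hfin
  let e := eqv hs hk
  have hen : e (mone F) = S.neg := eqv_mone hs hk hn
  let K : Subgroup S.G := H.comap e.symm.toMonoidHom
  have memK : ∀ x : Cl F, e x ∈ K ↔ x ∈ H := by
    intro x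
    show e.symm (e x) ∈ H ↔ x ∈ H
    rw [MulEquiv.symm_apply_apply]
  have hneg : S.neg ∈ K := by rw [← hen]; exact (memK _).2 hn1
  have hadj : ∀ x y : Cl F, Adj x y ↔ Ad S (e x) (e y) := adj_iff hs hk h0 hq h2
  have hK : ∀ u ∈ K, u ≠ 1 → ∀ z, S.q u z = S.zero → z ∈ K := by
    intro u hu hu1 z hz
    by_cases hz1 : z = 1
    · rw [hz1]; exact K.one_mem
    obtain ⟨x, rfl⟩ := e.surjective u
    obtain ⟨y, rfl⟩ := e.surjective z
    exact (memK y).2 (hH x ((memK x).1 hu) y ((hadj x y).2 ⟨hu1, hz1, hz⟩))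
  have e1 : ∀ x : Cl F, e x ≠ 1 ↔ x ≠ 1 := fun x => not_congr (MulEquiv.map_eq_one_iff e)
  have e2 : ∀ x : Cl F, e x ≠ S.neg ↔ x ≠ mone F := fun x => by
    rw [← hen]
    exact not_congr e.injective.eq_iff
  have hvs : ∀ x : Cl F, x ≠ 1 → vs S (e x) = degree x + 1 := by
    intro x hx
    have h3 : {z : S.G | S.q (e x) z = S.zero} = insert 1 (e '' {y | Adj x y}) := by
      refine Set.ext fun z => ⟨?_, ?_⟩
      · intro hz
        by_cases hz1 : z = 1
        · exact Or.inl hz1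
        obtain ⟨y, rfl⟩ := e.surjective z
        exact Or.inr ⟨y, (hadj x y).2 ⟨(e1 x).2 hx, hz1, hz⟩, rfl⟩
      · rintro (rfl | ⟨y, hy, rfl⟩)
        · exact q_one' h _
        · exact ((hadj x y).1 hy).2.2
    have h4 : vs S (e x) = {z : S.G | S.q (e x) z = S.zero}.ncard := rfl
    rw [h4, h3, Set.ncard_insert_of_notMem, Set.ncard_image_of_injective _ e.injective]
    · rfl
    · rintro ⟨y, hy, hy1⟩
      exact ((hadj x y).1 hy).2.1 hy1
  have hcl : Nat.card (Cl F) = Nat.card S.G := Nat.card_congr e.toEquiv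
  have hcK : Nat.card K = Nat.card H := by
    refine Nat.card_congr ?_
    refine Equiv.subtypeEquiv e.symm.toEquiv ?_
    intro x
    exact Iff.rfl
  have hci : Nat.card H * H.index = Nat.card (Cl F) := H.card_mul_index
  have hiso : ∀ x : Cl F, Isolated x ↔ Bi S (e x) := isolated_iff hs hk hn h0 hq h2 h
  have hRK : ∀ b ∈ K, b ≠ 1 → b ≠ S.neg → Hr S b → Bi S b := by
    intro b hb hb1 hb2 hr
    obtain ⟨x, rfl⟩ := e.surjective b
    refine (hiso x).1 (hR x ((memK x).1 hb) ((e1 x).1 hb1) ((e2 x).1 hb2) ?_)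
    intro y hy
    have hy' := (hadj x y).1 hy
    rcases hr _ hy'.2.2 with h3 | h3
    · exact absurd h3 hy'.2.1
    · apply e.injective
      rw [h3, map_mul, hen]
  have hrig : ∀ b : S.G, b ∉ K → Hr S b := fun b hb =>
    rigid_of_closed' h hneg hK hRK ((memK a).2 ha) ((e1 a).2 ha1) ((e2 a).2 ha2)
      (fun hc => hai ((hiso a).2 hc)) hb
  have hbi : ∀ b : S.G, b ∉ K → Bi S b := by
    intro b hb
    refine ⟨?_, ?_, hrig b hb, hrig _ ?_⟩
    · rintro rfl; exact hb K.one_mem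
    · rintro rfl; exact hb hneg
    · intro hc
      apply hb
      have := K.mul_mem hneg hc
      rwa [← mul_assoc, h.exp2, one_mul] at this
  obtain ⟨hT, hin⟩ := isQuat_restrN h K hneg hbi
  obtain ⟨k, hk1, hk2⟩ := chain _ S h hSf le_rfl K hneg hbi
  have hst : IsStructureOf F (ext^[k] (restrN S K hneg)) :=
    structure_iso hS' (iso_symm hk2) (ext_one k _ (q_one' hT 1))
  refine ⟨?_, k, restrN S K hneg, hT, hcK, ?_, hst, ?_⟩
  · intro y hy
    rw [isolated_iff hs hk hn h0 hq h2 h]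
    exact hbi _ fun hc => hy ((memK y).1 hc)
  · have h3 : 0 < Nat.card H := Nat.card_pos
    refine Nat.eq_of_mul_eq_mul_left h3 ?_
    rw [hci, mul_comm, ← hcK, hk1, hcl]
  · constructor
    · rintro ⟨T, hT', hTs⟩
      exact elem_restr h K hneg hT hin (Elem.iso _ _ hT' (iso_of_structure hTs hS'))
    · intro hT'
      exact ⟨_, elem_iter hT' k, hst⟩

end Pool.Agent.H86.SG
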