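import Mathlib
import Pool.Agent.H86.SG.CntF
import Pool.Agent.H86.SG.Lab

set_option autoImplicit false

/-! Fields whose splitting graph has a subgroup closed under neighbours. -/

namespace Pool.Agent.H86.SG

open scoped Quaternion
open Pool.Agent.H315R3.ETC Pool.Agent.TH188.ET Pool.Agent.Y920.ETC

theorem closed_group {F : Type} [Field F] (hF : Finitary F) (H : Subgroup (Cl F))
    (hH : NormClosed H) (hn1 : mone F ∈ H) (hR : NoRigid H) {a : Cl F} (ha : a ∈ H) (ha1 : a ≠ 1)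
    (ha2 : a ≠ mone F) : ExtensionOf H := by
  obtain ⟨h2, hfin⟩ := hF
  obtain ⟨S, hS, hSf, h⟩ := exists_structure h2 (finSq_of_index hfin)
  have hS' := hS
  obtain ⟨φ, hs, hk, hn, h0, hq⟩ := hS
  have hclf : Finite (Cl F) := Nat.finite_of_card_ne_zero hfin
  let e := eqv hs hk
  have hen : e (mone F) = S.neg := eqv_mone hs hk hn
  let K : Subgroup S.G := H.comap e.symm.toMonoidHom
  have memK : ∀ x : Cl F, e x ∈ K ↔ x ∈ H := by
    intro x
    show e.symm (e x) ∈ H ↔ x ∈ H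
    rw [MulEquiv.symm_apply_apply]
  have hneg : S.neg ∈ K := by rw [← hen]; exact (memK _).2 hn1
  have hadj : ∀ x y : Cl F, Adj x y ↔ Ad S (e x) (e y) := adj_iff hs hk h0 hq h2
  have hK : ∀ u ∈ K, u ≠ 1 → ∀ z, S.q u z = S.zero → z ∈ K := by
    intro u hu hu1 z hz
    by_cases hz1 : z = 1
    · rw [hz1]; exact K.one_mem
    obtain ⟨x, rfl⟩ := e.surjective u
    obtain ⟨y, rfl⟩ := e.surjective z
    exact (memK y).2 (hH x ((memK x).1 hu) y ((hadj x y).2 ⟨hu1, hz1, hz⟩))
  have e1 : ∀ x : Cl F, e x ≠ 1 ↔ x ≠ 1 := fun x => not_congr (MulEquiv.map_eq_one_iff e)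
  have e2 : ∀ x : Cl F, e x ≠ S.neg ↔ x ≠ mone F := fun x => by
    rw [← hen]
    exact not_congr e.injective.eq_iff
  have hvs : ∀ x : Cl F, x ≠ 1 → vs S (e x) = degree x + 1 := by
    intro x hx
    have h3 : {z : S.G | S.q (e x) z = S.zero} = insert 1 (e '' {y | Adj x y}) := by
      refine Set.ext fun z => ⟨?_, ?_⟩
      · intro hz
        by_cases hz1 : z = 1
        · exact Or.inl hz1
        obtain ⟨y, rfl⟩ := e.surjective z
        exact Or.inr ⟨y, (hadj x y).2 ⟨(e1 x).2 hx, hz1, hz⟩, rfl⟩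
      · rintro (rfl | ⟨y, hy, rfl⟩)
        · exact q_one' h _
        · exact ((hadj x y).1 hy).2.2
    have h4 : vs S (e x) = {z : S.G | S.q (e x) z = S.zero}.ncard := rfl
    rw [h4, h3, Set.ncard_insert_of_notMem, Set.ncard_image_of_injective _ e.injective]
    · rfl
    · rintro ⟨y, hy, hy1⟩
      exact ((hadj x y).1 hy).2.1 hy1
  have hcl : Nat.card (Cl F) = Nat.card S.G := Nat.card_congr e.toEquiv
  have hcK : Nat.card K = Nat.card H := by
    refine Nat.card_congr ?_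
    refine Equiv.subtypeEquiv e.symm.toEquiv ?_
    intro x
    exact Iff.rfl
  have hci : Nat.card H * H.index = Nat.card (Cl F) := H.card_mul_index
  have hRK : ∀ b ∈ K, b ≠ 1 → b ≠ S.neg → ¬ Hr S b := by
    intro b hb hb1 hb2 hr
    obtain ⟨x, rfl⟩ := e.surjective b
    obtain ⟨y, hy, hy2⟩ := hR x ((memK x).1 hb) ((e1 x).1 hb1) ((e2 x).1 hb2)
    have hy' := (hadj x y).1 hy
    rcases hr _ hy'.2.2 with h3 | h3
    · exact hy'.2.1 h3
    · apply hy2
      apply e.injective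
      rw [h3, map_mul, hen]
  have haK : e a ∈ K := (memK a).2 ha
  have hrig : ∀ b : S.G, b ∉ K → Hr S b := fun b hb =>
    rigid_of_closed h hneg hK hRK haK ((e1 a).2 ha1) ((e2 a).2 ha2) hb
  have hbi : ∀ b : S.G, b ∉ K → Bi S b := by
    intro b hb
    refine ⟨?_, ?_, hrig b hb, hrig _ ?_⟩
    · rintro rfl; exact hb K.one_mem
    · rintro rfl; exact hb hneg
    · intro hc
      apply hb
      have := K.mul_mem hneg hc
      rwa [← mul_assoc, h.exp2, one_mul] at this
  obtain ⟨hT, hin⟩ := isQuat_restrN h K hneg hbi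
  obtain ⟨k, hk1, hk2⟩ := chain _ S h hSf le_rfl K hneg hbi
  have hst : IsStructureOf F (ext^[k] (restrN S K hneg)) :=
    structure_iso hS' (iso_symm hk2) (ext_one k _ (q_one' hT 1))
  refine ⟨?_, k, restrN S K hneg, hT, hcK, ?_, hst, ?_⟩
  · intro y hy
    rw [isolated_iff hs hk hn h0 hq h2 h]
    exact hbi _ fun hc => hy ((memK y).1 hc)
  · have h3 : 0 < Nat.card H := Nat.card_pos
    refine Nat.eq_of_mul_eq_mul_left h3 ?_
    rw [hci, mul_comm, ← hcK, hk1, hcl]
  · constructor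
    · rintro ⟨T, hT', hTs⟩
      exact elem_restr h K hneg hT hin (Elem.iso _ _ hT' (iso_of_structure hTs hS'))
    · intro hT'
      exact ⟨_, elem_iter hT' k, hst⟩

end Pool.Agent.H86.SG
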