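import Mathlib
import Pool.Agent.H86.SG.Fld
import Pool.Agent.H86.SG.RDefs
import Pool.Agent.H86.SG.Lab

set_option autoImplicit false

/-! One component of diameter at most two, if `-1` is a square: all other vertices are isolated. -/

namespace Pool.Agent.H86.SG

open scoped Quaternion
open Pool.Agent.H315R3.ETC Pool.Agent.TH188.ET Pool.Agent.Y920.ETC

section

variable {S : QData} (h : IsQuat S) (hn : S.neg = 1)

/-- the component of `e` together with `1` -/
def compOne (e : S.G)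
    (hD : ∀ x y, Co S e x → Co S e y → ∃ w, Ad S x w ∧ Ad S w y) : Subgroup S.G where
  carrier := {x | x = 1 ∨ Co S e x}
  one_mem' := Or.inl rfl
  mul_mem' := by
    rintro x y (rfl | hx) (rfl | hy)
    · exact Or.inl (one_mul 1)
    · rw [one_mul]; exact Or.inr hy
    · rw [mul_one]; exact Or.inr hx
    · by_cases e1 : x * y = 1
      · exact Or.inl e1
      obtain ⟨w, hw1, hw2⟩ := hD x y hx hy
      right
      refine Relation.ReflTransGen.tail (Relation.ReflTransGen.tail hx hw1) ⟨hw1.2.1, e1, ?_⟩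
      exact q_mul h (by rw [h.qs2]; exact hw1.2.2) hw2.2.2
  inv_mem' := by
    intro x hx
    have : x⁻¹ = x := inv_eq_of_mul_eq_one_left (h.exp2 x)
    rw [this]
    exact hx

include hn in
lemma co_rigid {b : S.G} (hr : Hr S b) {z : S.G} (hz : Co S b z) : z = b := by
  induction hz with
  | refl => rfl
  | tail _ h2 ih =>
    rw [ih] at h2
    rcases hr _ h2.2.2 with h3 | h3
    · exact absurd h3 h2.2.1
    · rw [h3, hn, one_mul]

include h hn in
theorem one_comp [Finite S.G] {e : S.G} (he : e ≠ 1) (hnr : ¬ Hr S e)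
    (hD : ∀ x y, Co S e x → Co S e y → ∃ w, Ad S x w ∧ Ad S w y) {g : S.G} (hg1 : g ≠ 1)
    (hg : ¬ Co S e g) : Hr S g := by
  have memK : ∀ x, x ∈ compOne h e hD ↔ (x = 1 ∨ Co S e x) := fun _ => Iff.rfl
  refine rigid_of_closed (K := compOne h e hD) h ?_ ?_ ?_ (a := e) ?_ he ?_ ?_
  · rw [hn]; exact Subgroup.one_mem _
  · intro u hu hu1 z hz
    rcases (memK u).1 hu with h1 | h1
    · exact absurd h1 hu1
    · by_cases hz1 : z = 1
      · exact (memK z).2 (Or.inl hz1)
      · exact (memK z).2 (Or.inr (Relation.ReflTransGen.tail h1 ⟨hu1, hz1, hz⟩))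
  · intro b hb hb1 _ hr
    rcases (memK b).1 hb with h1 | h1
    · exact hb1 h1
    · apply hnr
      rw [co_rigid hn hr (co_symm h h1)]
      exact hr
  · exact (memK e).2 (Or.inr Relation.ReflTransGen.refl)
  · rw [hn]; exact he
  · intro hc
    rcases (memK g).1 hc with h1 | h1
    · exact hg1 h1
    · exact hg h1

end

/-- `-1` is a square, and some component with more than one vertex has diameter at most two -/
def OneNarrow (F : Type) [Field F] : Prop :=
  IsSquare (-1 : F) ∧ ∃ x : Cl F, x ≠ 1 ∧ ¬ Isolated x ∧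
    ∀ y z : Cl F, Conn x y → Conn x z → Dist 2 y z

theorem narrow_of_one {F : Type} [Field F] (hF : Finitary F) (hO : OneNarrow F) :
    NarrowGraph F := by
  obtain ⟨h2, hfin⟩ := hF
  obtain ⟨hsq, x, hx1, hx, hD⟩ := hO
  obtain ⟨S, hS, hSf, h⟩ := exists_structure h2 (finSq_of_index hfin)
  obtain ⟨φ, hs, hk, hn, h0, hq⟩ := hS
  have hneg : S.neg = 1 := (neg_iff hk hn).2 hsq
  let e := eqv hs hk
  have e1 : ∀ x : Cl F, e x ≠ 1 ↔ x ≠ 1 := fun x => not_congr (MulEquiv.map_eq_one_iff e)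
  have key : ∀ (n : ℕ) (x y : Cl F), Dist n x y ↔ Within (Ad S) n (e x) (e y) :=
    dist_iff hs hk h0 hq h2
  have keyc : ∀ x y : Cl F, Conn x y ↔ Co S (e x) (e y) := conn_iff hs hk h0 hq h2
  have hbi : ∀ y : Cl F, y ≠ 1 → (Isolated y ↔ Hr S (e y)) := by
    intro y hy
    rw [isolated_iff hs hk hn h0 hq h2 h]
    unfold Bi
    rw [hneg, one_mul]
    exact ⟨fun hb => hb.2.2.1, fun hr => ⟨(e1 y).2 hy, (e1 y).2 hy, hr, hr⟩⟩
  have hnr : ¬ Hr S (e x) := fun hr => hx ((hbi x hx1).2 hr)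
  have hDS : ∀ u v, Co S (e x) u → Co S (e x) v → ∃ w, Ad S u w ∧ Ad S w v := by
    intro u v hu hv
    obtain ⟨y, rfl⟩ := e.surjective u
    obtain ⟨z, rfl⟩ := e.surjective v
    exact (within_two_iff h hneg (co_ne hu ((e1 x).2 hx1))).1
      ((key 2 y z).1 (hD y z ((keyc x y).2 hu) ((keyc x z).2 hv)))
  left
  intro y z hy hyz
  by_cases hxy : Conn x y
  · refine hD y z hxy ?_
    rw [keyc] at hxy hyz ⊢
    exact co_trans hxy hyz
  · have hr : Hr S (e y) := one_comp h hneg ((e1 x).2 hx1) hnr hDS ((e1 y).2 hy)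
      (fun hc => hxy ((keyc x y).2 hc))
    have h3 : e z = e y := co_rigid hneg hr ((keyc y z).1 hyz)
    have h4 : z = y := e.injective h3
    rw [h4]
    exact Or.inl (Or.inl rfl)

end Pool.Agent.H86.SG
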