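import Mathlib
import Pool.Agent.H86.SG.One
import Pool.Agent.H86.SG.Crit

set_option autoImplicit false

/-! One small component of diameter at most two, if `-1` is a square. -/

namespace Pool.Agent.H86.SG

open scoped Quaternion
open Pool.Agent.H315R3.ETC Pool.Agent.TH188.ET Pool.Agent.Y920.ETC

/-- `-1` is a square, and some component with more than one vertex has diameter at most two and at
most `m` vertices -/
def OneSmall (F : Type) [Field F] (m : ℕ) : Prop :=
  IsSquare (-1 : F) ∧ ∃ x : Cl F, x ≠ 1 ∧ ¬ Isolated x ∧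
    (∀ y z : Cl F, Conn x y → Conn x z → Dist 2 y z) ∧ {y | Conn x y}.ncard ≤ m

theorem one_small {F : Type} [Field F] (hF : Finitary F) (hO : OneSmall F 15) :
    ElementaryType F := by
  obtain ⟨hsq, x, hx1, hx, hD, hc⟩ := hO
  have hN : NarrowGraph F := narrow_of_one hF ⟨hsq, x, hx1, hx, hD⟩
  have hm := mone_eq_one hsq
  obtain ⟨B, k, T, h1, h3, h4, h5, h6, h7, h8, -⟩ := decomp' hF.1 hF.2 hN
  rw [h8]
  have hclf : Finite (Cl F) := Nat.finite_of_card_ne_zero hF.2
  have hsub : (B : Set (Cl F)) ⊆ insert 1 {y | Conn x y} := by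
    intro y hy
    by_cases hy1 : y = 1
    · exact Or.inl hy1
    · exact Or.inr (h3 x ((h1 x).2 hx) y hy hx1 (by rw [hm]; exact hx1) hy1
        (by rw [hm]; exact hy1))
  have h9 := Set.ncard_le_ncard hsub (Set.toFinite _)
  have h10 := Set.ncard_insert_le (1 : Cl F) {y | Conn x y}
  have h13 : (B : Set (Cl F)).ncard = Nat.card B := rfl
  have hTf : Finite T.G := Nat.finite_of_card_ne_zero (by
    rw [h6]
    exact Nat.card_pos.ne')
  exact Pool.Agent.R675.ETC4.elem_sixteen T h5 (by omega)

end Pool.Agent.H86.SG
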